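import Pool.Agent.Lib.EDN.Half

/-!
# Passage times in half spaces: automorphisms
-/

set_option autoImplicit false

open MeasureTheory ENNReal Pool.Agent.Lib.MP_a83deb_pr

namespace Pool.Agent.Lib.EDN

variable {d : ℕ}

private theorem halfMap_symm (f : lattice d ≃g lattice d) (e : Sym2 (Fin d → ℤ)) :
    (e.map f.symm).map f = e := by
  rw [Sym2.map_map]
  have h1 : (⇑f ∘ ⇑f.symm) = id := by
    funext z
    simp
  rw [h1, Sym2.map_id]
  rfl

private theorem halfMap_Tp (j : Fin d) (h c : ℤ) (f : lattice d ≃g lattice d)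
    (hf : ∀ v, (f v) j = v j + c) (τ : Sym2 (Fin d → ℤ) → ℝ) (x y : Fin d → ℤ) :
    Tp j (h + c) τ (f x) (f y) = Tp j h (fun e => τ (e.map f)) x y := by
  unfold Tp
  rw [iInf, iInf]
  congr 1
  ext r
  constructor
  · rintro ⟨⟨w, hw⟩, rfl⟩
    refine ⟨⟨(w.map f.symm.toHom).copy (f.symm_apply_apply x) (f.symm_apply_apply y), ?_⟩, ?_⟩
    · intro v hv
      rw [SimpleGraph.Walk.support_copy, SimpleGraph.Walk.support_map] at hv
      obtain ⟨u, hu, rfl⟩ := List.mem_map.1 hv
      have h1 := hw u hu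
      have h2 := hf (f.symm u)
      rw [f.apply_symm_apply] at h2
      change h ≤ (f.symm u) j
      linarith
    · simp only [passage]
      rw [SimpleGraph.Walk.edges_copy, SimpleGraph.Walk.edges_map, List.map_map]
      congr 1
      refine List.map_congr_left fun e _ => ?_
      change τ ((e.map f.symm).map f) = τ e
      rw [halfMap_symm]
  · rintro ⟨⟨w, hw⟩, rfl⟩
    refine ⟨⟨w.map f.toHom, ?_⟩, ?_⟩
    · intro v hv
      rw [SimpleGraph.Walk.support_map] at hv
      obtain ⟨u, hu, rfl⟩ := List.mem_map.1 hv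
      have h1 := hw u hu
      have h2 := hf u
      change h + c ≤ (f u) j
      linarith
    · simp only [passage]
      rw [SimpleGraph.Walk.edges_map, List.map_map]
      rfl

theorem integral_Tp_map (j : Fin d) (h c : ℤ) (f : lattice d ≃g lattice d)
    (hf : ∀ v, (f v) j = v j + c) (x y : Fin d → ℤ) :
    ∫ τ, Tp j (h + c) τ (f x) (f y) ∂law d nu = ∫ τ, Tp j h τ x y ∂law d nu := by
  let e : Sym2 (Fin d → ℤ) ≃ Sym2 (Fin d → ℤ) :=
    { toFun := Sym2.map f
      invFun := Sym2.map f.symm
      left_inv := fun z => by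
        rw [Sym2.map_map]
        have h1 : (⇑f.symm ∘ ⇑f) = id := by funext z; simp
        rw [h1, Sym2.map_id]; rfl
      right_inv := fun z => by
        rw [Sym2.map_map]
        have h1 : (⇑f ∘ ⇑f.symm) = id := by funext z; simp
        rw [h1, Sym2.map_id]; rfl }
  have h1 : ∫ τ, Tp j (h + c) τ (f x) (f y) ∂law d nu
      = ∫ τ, Tp j h (fun z => τ (e z)) x y ∂law d nu := by
    refine integral_congr_ae (Filter.Eventually.of_forall fun τ => ?_)
    exact halfMap_Tp j h c f hf τ x y
  have h2 := Measure.infinitePi_map_piCongrLeft (X := fun _ : Sym2 (Fin d → ℤ) => ℝ)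
    (μ := fun _ => nu) e
  have h3 : Measurable fun τ : Sym2 (Fin d → ℤ) → ℝ => Tp j h (fun z => τ (e z)) x y :=
    (measurable_Tp j h x y).comp (measurable_pi_lambda _ fun z => measurable_pi_apply _)
  rw [h1]
  have h4 : law d nu = Measure.map (MeasurableEquiv.piCongrLeft (fun _ : Sym2 (Fin d → ℤ) => ℝ) e)
      (law d nu) := h2.symm
  conv_lhs => rw [h4]
  rw [MeasureTheory.integral_map (MeasurableEquiv.measurable _).aemeasurable
    h3.aestronglyMeasurable]
  refine integral_congr_ae (Filter.Eventually.of_forall fun τ => ?_)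
  change Tp j h (fun z => (MeasurableEquiv.piCongrLeft (fun _ : Sym2 (Fin d → ℤ) => ℝ) e) τ (e z)) x y
    = _
  congr 1
  funext z
  exact Equiv.piCongrLeft_apply_apply (fun _ : Sym2 (Fin d → ℤ) => ℝ) e τ z

end Pool.Agent.Lib.EDN
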