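import Pool.Agent.Lib.EDN.Expo

/-!
# The Laplace transform of the passage time of a path
-/

set_option autoImplicit false

open MeasureTheory ENNReal Pool.Agent.Lib.MP_a83deb_pr

namespace Pool.Agent.Lib.EDN

variable {d : ℕ}

theorem laplace_path {s : ℝ} (hs : 0 ≤ s) {x y : Fin d → ℤ} (w : (lattice d).Walk x y)
    (hw : w.IsPath) :
    ∫⁻ τ, ENNReal.ofReal (Real.exp (-(s * passage τ w))) ∂law d nu =
      ENNReal.ofReal ((1 / (1 + s)) ^ w.length) := by
  classical
  have hn : w.edges.Nodup := hw.isTrail.edges_nodup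
  have hsum : ∀ τ : Sym2 (Fin d → ℤ) → ℝ, passage τ w = ∑ e ∈ w.edges.toFinset, τ e := by
    intro τ
    unfold passage
    rw [List.sum_toFinset _ hn]
  have hprod : ∀ τ : Sym2 (Fin d → ℤ) → ℝ, ENNReal.ofReal (Real.exp (-(s * passage τ w))) =
      ∏ e ∈ w.edges.toFinset, ENNReal.ofReal (Real.exp (-(s * τ e))) := by
    intro τ
    rw [hsum, Finset.mul_sum, ← Finset.sum_neg_distrib, Real.exp_sum,
      ENNReal.ofReal_prod_of_nonneg fun e _ => (Real.exp_pos _).le]
  simp_rw [hprod]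
  have hm : Measurable fun t : ℝ => ENNReal.ofReal (Real.exp (-(s * t))) := by fun_prop
  have ind : ProbabilityTheory.iIndepFun (fun (e : Sym2 (Fin d → ℤ)) (τ : Sym2 (Fin d → ℤ) → ℝ) =>
      ENNReal.ofReal (Real.exp (-(s * τ e)))) (law d nu) :=
    ProbabilityTheory.iIndepFun_infinitePi (P := fun _ : Sym2 (Fin d → ℤ) => nu)
      (X := fun _ t => ENNReal.ofReal (Real.exp (-(s * t)))) (fun _ => hm)
  rw [ProbabilityTheory.lintegral_prod_eq_prod_lintegral_of_indepFun w.edges.toFinset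
    (fun (e : Sym2 (Fin d → ℤ)) (τ : Sym2 (Fin d → ℤ) → ℝ) => ENNReal.ofReal (Real.exp (-(s * τ e))))
    ind (fun e => hm.comp (measurable_pi_apply e))]
  have h1 : ∀ e : Sym2 (Fin d → ℤ), ∫⁻ τ, ENNReal.ofReal (Real.exp (-(s * τ e))) ∂law d nu =
      ENNReal.ofReal (1 / (1 + s)) := by
    intro e
    rw [← laplace_nu hs]
    exact (measurePreserving_eval_infinitePi (fun _ : Sym2 (Fin d → ℤ) => nu) e).lintegral_comp hm
  rw [Finset.prod_congr rfl fun e _ => h1 e, Finset.prod_const, List.toFinset_card_of_nodup hn,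
    SimpleGraph.Walk.length_edges, ENNReal.ofReal_pow (by positivity)]

end Pool.Agent.Lib.EDN
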