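import Pool.Agent.Lib.EDN.Count
import Pool.Agent.Lib.EDN.PathLap

/-!
# The Laplace transform of `T(0, x)`
-/

set_option autoImplicit false

open MeasureTheory ENNReal Pool.Agent.Lib.MP_a83deb_pr

namespace Pool.Agent.Lib.EDN

variable {d : ℕ}

private theorem passage_bypass_le {τ : Sym2 (Fin d → ℤ) → ℝ} (hτ : ∀ e, 0 ≤ τ e)
    {x y : Fin d → ℤ} (w : (lattice d).Walk x y) : passage τ w.bypass ≤ passage τ w := by
  induction w with
  | nil => exact le_rfl
  | @cons a b c h w ih =>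
    rw [SimpleGraph.Walk.bypass]
    split_ifs with hs
    · have h0 := passage_append τ (w.bypass.takeUntil a hs) (w.bypass.dropUntil a hs)
      rw [SimpleGraph.Walk.take_spec] at h0
      have h1 := passage_nonneg hτ (w.bypass.takeUntil a hs)
      rw [passage_cons]
      linarith [hτ s(a, b)]
    · rw [passage_cons, passage_cons]
      linarith

private theorem exp_T_le {s : ℝ} (hs : 0 < s) {τ : Sym2 (Fin d → ℤ) → ℝ} (hτ : ∀ e, 0 ≤ τ e)
    (x : Fin d → ℤ) :
    ENNReal.ofReal (Real.exp (-(s * T τ 0 x))) ≤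
      ∑' w : {w : (lattice d).Walk 0 x // w.IsPath},
        ENNReal.ofReal (Real.exp (-(s * passage τ w.1))) := by
  set C := ∑' w : {w : (lattice d).Walk 0 x // w.IsPath},
    ENNReal.ofReal (Real.exp (-(s * passage τ w.1))) with hC
  have h1 : ∀ w : (lattice d).Walk 0 x, ENNReal.ofReal (Real.exp (-(s * passage τ w))) ≤ C := by
    intro w
    refine le_trans ?_ (ENNReal.le_tsum (⟨w.bypass, w.bypass_isPath⟩ :
      {w : (lattice d).Walk 0 x // w.IsPath}))
    refine ENNReal.ofReal_le_ofReal (Real.exp_le_exp.2 (neg_le_neg ?_))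
    exact mul_le_mul_of_nonneg_left (passage_bypass_le hτ w) hs.le
  by_cases hT : C = ⊤
  · rw [hT]
    exact le_top
  have h2 : ∀ w : (lattice d).Walk 0 x, Real.exp (-(s * passage τ w)) ≤ C.toReal := fun w =>
    (ENNReal.ofReal_le_iff_le_toReal hT).1 (h1 w)
  have hpos : 0 < C.toReal :=
    (Real.exp_pos _).trans_le (h2 (Classical.arbitrary ((lattice d).Walk 0 x)))
  have h3 : -Real.log C.toReal / s ≤ T τ 0 x := by
    refine le_ciInf fun w => ?_
    rw [div_le_iff₀ hs]
    have h4 := (Real.le_log_iff_exp_le hpos).2 (h2 w)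
    linarith
  rw [ENNReal.ofReal_le_iff_le_toReal hT]
  refine (Real.le_log_iff_exp_le hpos).1 ?_
  rw [div_le_iff₀ hs] at h3
  linarith

theorem laplace_T {s : ℝ} (hs : 0 < s) (θ : Fin d → ℝ)
    (hρ : 2 * ∑ i, Real.cosh (θ i) < 1 + s) (x : Fin d → ℤ) :
    ∫⁻ τ, ENNReal.ofReal (Real.exp (-(s * T τ 0 x))) ∂law d nu ≤
      ENNReal.ofReal (Real.exp (-∑ i, θ i * (x i : ℝ)) /
        (1 - 1 / (1 + s) * (2 * ∑ i, Real.cosh (θ i)))) := by
  have hs1 : 0 < 1 + s := by linarith
  have hL : 0 ≤ 1 / (1 + s) := by positivity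
  have hρ' : 1 / (1 + s) * (2 * ∑ i, Real.cosh (θ i)) < 1 := by
    rw [one_div, inv_mul_lt_iff₀ hs1, mul_one]
    exact hρ
  have h0 : ∑ i, θ i * (((0 : Fin d → ℤ) i : ℝ) - x i) = -∑ i, θ i * (x i : ℝ) := by
    rw [← Finset.sum_neg_distrib]
    refine Finset.sum_congr rfl fun i _ => ?_
    simp
  calc ∫⁻ τ, ENNReal.ofReal (Real.exp (-(s * T τ 0 x))) ∂law d nu
      ≤ ∫⁻ τ, ∑' w : {w : (lattice d).Walk 0 x // w.IsPath},
          ENNReal.ofReal (Real.exp (-(s * passage τ w.1))) ∂law d nu := by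
        refine lintegral_mono_ae ?_
        filter_upwards [dist_nu.ae0 (d := d)] with τ hτ using exp_T_le hs hτ x
    _ = ∑' w : {w : (lattice d).Walk 0 x // w.IsPath},
          ∫⁻ τ, ENNReal.ofReal (Real.exp (-(s * passage τ w.1))) ∂law d nu := by
        refine lintegral_tsum fun w => ?_
        exact (ENNReal.measurable_ofReal.comp (Real.measurable_exp.comp
          ((measurable_passage w.1).const_mul s).neg)).aemeasurable
    _ = ∑' w : {w : (lattice d).Walk 0 x // w.IsPath},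
          ENNReal.ofReal ((1 / (1 + s)) ^ w.1.length) :=
        tsum_congr fun w => laplace_path hs.le w.1 w.2
    _ ≤ ∑' w : (lattice d).Walk 0 x, ENNReal.ofReal ((1 / (1 + s)) ^ w.length) :=
        ENNReal.tsum_comp_le_tsum_of_injective Subtype.val_injective
          fun w : (lattice d).Walk 0 x => ENNReal.ofReal ((1 / (1 + s)) ^ w.length)
    _ ≤ _ := by
        have h1 := sum_walks θ hL hρ' 0 x
        rwa [h0] at h1

end Pool.Agent.Lib.EDN
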