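import Pool.Agent.Lib.EDN.LapT

/-!
# The lower bound for the time constant
-/

set_option autoImplicit false

open MeasureTheory ENNReal Filter Topology Pool.Agent.Lib.MP_a83deb_pr

namespace Pool.Agent.Lib.EDN

variable {d : ℕ}

private theorem lower_pt (hd : 0 < d) (θ : Fin d → ℝ) (p : Fin d → ℤ) :
    ∑ i, θ i * (p i : ℝ) ≤ 2 * (∑ i, Real.cosh (θ i)) * et d nu p +
      Real.log (1 + 2 * ∑ i, Real.cosh (θ i)) := by
  set s := 2 * ∑ i, Real.cosh (θ i) with hs
  have hs0 : 0 < s := by
    have : 0 < ∑ i, Real.cosh (θ i) :=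
      Finset.sum_pos (fun i _ => Real.cosh_pos _) ⟨⟨0, hd⟩, Finset.mem_univ _⟩
    positivity
  have h1 := laplace_T hs0 θ (by linarith) p
  have hint : Integrable (fun τ => T τ 0 p) (law d nu) := dist_nu.int_T 0 p
  have hexp : Integrable (fun τ => Real.exp (-(s * T τ 0 p))) (law d nu) := by
    refine (integrable_const (1 : ℝ)).mono' ((Real.measurable_exp.comp
      (((measurable_T 0 p).const_mul s).neg)).aestronglyMeasurable) ?_
    filter_upwards [dist_nu.ae0 (d := d)] with τ hτ
    rw [Real.norm_eq_abs, abs_of_pos (Real.exp_pos _)]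
    refine Real.exp_le_one_iff.2 ?_
    have := mul_nonneg hs0.le (T_nonneg hτ 0 p)
    linarith
  rw [← ofReal_integral_eq_lintegral_ofReal hexp
    (Filter.Eventually.of_forall fun _ => (Real.exp_pos _).le)] at h1
  have hsub : 1 - 1 / (1 + s) * (2 * ∑ i, Real.cosh (θ i)) = 1 / (1 + s) := by
    rw [← hs]
    field_simp
    ring
  rw [hsub] at h1
  have h2 := (ENNReal.ofReal_le_ofReal_iff (by positivity)).1 h1
  have h3 : Real.exp (-(s * et d nu p)) ≤ ∫ τ, Real.exp (-(s * T τ 0 p)) ∂law d nu := by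
    have hi2 : Integrable (fun τ => 1 + (-(s * T τ 0 p) + s * et d nu p)) (law d nu) :=
      (integrable_const _).add ((hint.const_mul s).neg.add (integrable_const _))
    have h4 : ∫ τ, Real.exp (-(s * et d nu p)) * (1 + (-(s * T τ 0 p) + s * et d nu p)) ∂law d nu ≤
        ∫ τ, Real.exp (-(s * T τ 0 p)) ∂law d nu := by
      refine integral_mono (hi2.const_mul _) hexp fun τ => ?_
      have h5 := Real.add_one_le_exp (-(s * T τ 0 p) + s * et d nu p)
      calc _ ≤ Real.exp (-(s * et d nu p)) * Real.exp (-(s * T τ 0 p) + s * et d nu p) :=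
            mul_le_mul_of_nonneg_left (by linarith) (Real.exp_pos _).le
        _ = _ := by
            rw [← Real.exp_add]
            congr 1
            ring
    rw [integral_const_mul] at h4
    have h6 : ∫ τ, (1 + (-(s * T τ 0 p) + s * et d nu p)) ∂law d nu = 1 := by
      have e1 : ∫ τ, (1 + (-(s * T τ 0 p) + s * et d nu p)) ∂law d nu =
          (∫ _τ, (1 : ℝ) ∂law d nu) + ∫ τ, (-(s * T τ 0 p) + s * et d nu p) ∂law d nu :=
        integral_add (integrable_const _) ((hint.const_mul s).neg.add (integrable_const _))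
      have e2 : ∫ τ, (-(s * T τ 0 p) + s * et d nu p) ∂law d nu =
          (∫ τ, -(s * T τ 0 p) ∂law d nu) + ∫ _τ, s * et d nu p ∂law d nu :=
        integral_add (hint.const_mul s).neg (integrable_const _)
      rw [e1, e2, integral_neg, integral_const_mul]
      simp [et]
    rw [h6, mul_one] at h4
    exact h4
  have h7 : Real.exp (-(s * et d nu p)) ≤ Real.exp (-∑ i, θ i * (p i : ℝ)) * (1 + s) := by
    calc _ ≤ _ := h3.trans h2
      _ = _ := by field_simp
  have h8 := Real.log_le_log (Real.exp_pos _) h7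
  rw [Real.log_exp, Real.log_mul (Real.exp_pos _).ne' (by positivity), Real.log_exp] at h8
  linarith

variable {M : EuclideanSpace ℝ (Fin d) → ℝ}

theorem lower (hM : IsTC nu M) (θ : Fin d → ℝ) (x : EuclideanSpace ℝ (Fin d)) :
    ∑ i, θ i * x i ≤ 2 * (∑ i, Real.cosh (θ i)) * M x := by
  rcases Nat.eq_zero_or_pos d with rfl | hd
  · simp
  set s := 2 * ∑ i, Real.cosh (θ i) with hs
  set C := Real.log (1 + s) + ∑ i, |θ i| with hC
  have h1 : ∀ n : ℕ, (n : ℝ) * ∑ i, θ i * x i ≤ s * et d nu (rnd ((n : ℝ) • x)) + C := by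
    intro n
    have h2 := lower_pt hd θ (rnd ((n : ℝ) • x))
    rw [← hs] at h2
    have h3 : (n : ℝ) * ∑ i, θ i * x i ≤
        ∑ i, θ i * ((rnd ((n : ℝ) • x) i : ℤ) : ℝ) + ∑ i, |θ i| := by
      rw [Finset.mul_sum, ← Finset.sum_add_distrib]
      refine Finset.sum_le_sum fun i _ => ?_
      have h4 := abs_sub_round ((n : ℝ) * x i)
      have h5 : ((rnd ((n : ℝ) • x) i : ℤ) : ℝ) = (round ((n : ℝ) * x i) : ℝ) := rfl
      rw [h5]
      have h6 : θ i * ((n : ℝ) * x i - round ((n : ℝ) * x i)) ≤ |θ i| := by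
        calc _ ≤ |θ i * ((n : ℝ) * x i - round ((n : ℝ) * x i))| := le_abs_self _
          _ = |θ i| * |(n : ℝ) * x i - round ((n : ℝ) * x i)| := abs_mul _ _
          _ ≤ |θ i| * 1 := mul_le_mul_of_nonneg_left (by linarith) (abs_nonneg _)
          _ = |θ i| := mul_one _
      linarith
    linarith
  have h2 : Tendsto (fun n : ℕ => s * (et d nu (rnd ((n : ℝ) • x)) / n) + C / n) atTop
      (𝓝 (s * M x + 0)) := ((hM x).const_mul s).add (tendsto_C C)
  rw [add_zero] at h2
  refine ge_of_tendsto h2 ?_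
  filter_upwards [eventually_gt_atTop 0] with n hn
  have hn' : (0 : ℝ) < n := by exact_mod_cast hn
  have h3 := h1 n
  have h4 : s * (et d nu (rnd ((n : ℝ) • x)) / n) + C / n =
      (s * et d nu (rnd ((n : ℝ) • x)) + C) / n := by ring
  rw [h4, le_div_iff₀ hn']
  linarith

end Pool.Agent.Lib.EDN
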