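import Pool.Agent.Lib.EDN.Step
import Pool.Agent.Lib.EDN.Drift
import Pool.Agent.Lib.EDN.Bound

/-!
# The upper bound for the time constant
-/

set_option autoImplicit false

open MeasureTheory ENNReal Filter Topology Pool.Agent.Lib.MP_a83deb_pr

namespace Pool.Agent.Lib.EDN

variable {d : ℕ}

variable {M : EuclideanSpace ℝ (Fin d) → ℝ}

private theorem upper_refl (j : Fin d) (m : ℕ) {y : Fin d → ℤ} (hy : y j = 0) :
    ∫ τ, Tp j 0 τ (-y) (Pi.single j (m : ℤ)) ∂law d nu =
      ∫ τ, Tp j 0 τ y (Pi.single j (m : ℤ)) ∂law d nu := by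
  have h1 := integral_Tp_map j 0 0 (sperm (fun k => if k = j then 1 else -1) (Equiv.refl _))
    (fun v => by
      show ((if j = j then (1 : ℤˣ) else -1 : ℤˣ) : ℤ) * v j = v j + 0
      simp) y (Pi.single j (m : ℤ))
  have e1 : (sperm (fun k => if k = j then 1 else -1) (Equiv.refl _)) y = -y := by
    funext k
    show ((if k = j then (1 : ℤˣ) else -1 : ℤˣ) : ℤ) * y k = -y k
    by_cases hk : k = j
    · subst hk
      simp [hy]
    · simp [hk]
  have e2 : (sperm (fun k => if k = j then 1 else -1) (Equiv.refl _)) (Pi.single j (m : ℤ)) =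
      Pi.single j (m : ℤ) := by
    funext k
    show ((if k = j then (1 : ℤˣ) else -1 : ℤˣ) : ℤ) * (Pi.single j (m : ℤ) : Fin d → ℤ) k =
      (Pi.single j (m : ℤ) : Fin d → ℤ) k
    by_cases hk : k = j
    · subst hk
      simp
    · simp [hk]
  rw [e1, e2, add_zero] at h1
  exact h1

theorem upper_phi (hM : IsTC nu M) (j : Fin d) :
    M (EuclideanSpace.single j 1) ≤ (Phi j {0}).toReal := by
  refine le_of_forall_pos_le_add fun ε hε => ?_
  obtain ⟨F, hF⟩ := exists_fam j hε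
  obtain ⟨p, hp, hs, h1⟩ := step F
  have hx : ∀ i, F.x i j = 0 := fun i => F.hor i _ (SimpleGraph.Walk.end_mem_support _)
  obtain ⟨C, hC⟩ := drift j F.x p hp hs hx
    (fun m y => ∫ τ, Tp j 0 τ y (Pi.single j (m : ℤ)) ∂law d nu)
    (a := ∫ τ, F.mn τ ∂law d nu) (fun y hy => by
      have h3 := integral_Tp_le j (h := 0) (x := y) (y := Pi.single j ((0 : ℕ) : ℤ))
        (by rw [hy]) (by simp)
      refine h3.trans (le_of_eq ?_)
      rw [n1_cast]
      refine Finset.sum_congr rfl fun k _ => ?_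
      simp) (fun m y hy => by
      have h3 := h1 m y hy
      push_cast
      exact h3) (fun m y hy => upper_refl j m hy)
  refine le_trans ?_ hF
  set a := ∫ τ, F.mn τ ∂law d nu with ha
  have hm : ∀ m : ℕ, 0 < m → M (EuclideanSpace.single j 1) ≤ a + C * (Real.sqrt m)⁻¹ := by
    intro m hm
    have hm' : (0 : ℝ) < m := by exact_mod_cast hm
    have h3 := IsTC.le_et dist_nu hM (Pi.single j (m : ℤ))
    have h4 : (WithLp.toLp 2 fun i => (((Pi.single j (m : ℤ) : Fin d → ℤ) i : ℤ) : ℝ) :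
        EuclideanSpace ℝ (Fin d)) = (m : ℝ) • EuclideanSpace.single j (1 : ℝ) := by
      ext i
      by_cases hi : i = j
      · subst hi
        simp
      · simp [hi]
    rw [h4, IsTC.smul dist_nu hM hm'.le] at h3
    have h5 : et d nu (Pi.single j (m : ℤ)) ≤
        ∫ τ, Tp j 0 τ 0 (Pi.single j (m : ℤ)) ∂law d nu := by
      have h6 : (0 : ℤ) ≤ (0 : Fin d → ℤ) j := le_rfl
      have h7 : (0 : ℤ) ≤ (Pi.single j (m : ℤ) : Fin d → ℤ) j := by simp
      refine integral_mono_ae (dist_nu.int_T _ _) (int_Tp j h6 h7) ?_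
      filter_upwards [dist_nu.ae0 (d := d)] with τ hτ using T_le_Tp j hτ h6 h7
    have h6 : (m : ℝ) * M (EuclideanSpace.single j 1) ≤ m * a + C * Real.sqrt m :=
      (h3.trans h5).trans (hC m)
    have h7 : (m : ℝ) * (a + C * (Real.sqrt m)⁻¹) = m * a + C * Real.sqrt m := by
      have h8 : 0 < Real.sqrt m := Real.sqrt_pos.2 hm'
      have h9 : Real.sqrt m * Real.sqrt m = m := Real.mul_self_sqrt hm'.le
      have h10 : (m : ℝ) * (Real.sqrt m)⁻¹ = Real.sqrt m := by
        rw [← h9]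
        rw [Real.sqrt_mul_self h8.le]
        field_simp
      calc (m : ℝ) * (a + C * (Real.sqrt m)⁻¹) = m * a + C * (m * (Real.sqrt m)⁻¹) := by ring
        _ = _ := by rw [h10]
    rw [← h7] at h6
    exact le_of_mul_le_mul_left h6 hm'
  have hlim : Tendsto (fun m : ℕ => a + C * (Real.sqrt m)⁻¹) atTop (𝓝 (a + C * 0)) :=
    ((tendsto_inv_atTop_zero.comp
      (Real.tendsto_sqrt_atTop.comp tendsto_natCast_atTop_atTop)).const_mul C).const_add a
  rw [mul_zero, add_zero] at hlim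
  refine ge_of_tendsto hlim ?_
  filter_upwards [eventually_gt_atTop 0] with m hm' using hm m hm'

theorem upper (hM : IsTC nu M) (hd : 2 ≤ d) (j : Fin d) :
    M (EuclideanSpace.single j 1) ≤ bound d := by
  refine (upper_phi hM j).trans (ENNReal.toReal_le_of_le_ofReal ?_ (phi_bound hd j))
  obtain ⟨n, rfl⟩ : ∃ n : ℕ, d = n + 2 := ⟨d - 2, by omega⟩
  have e1 : 2 * (((n + 2 : ℕ) : ℝ) - 1) = ((2 * n + 2 : ℕ) : ℝ) := by
    push_cast
    ring
  have h1 : (1 : ℝ) ≤ ((2 * n + 2 : ℕ) : ℝ) := by exact_mod_cast (by omega : 1 ≤ 2 * n + 2)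
  have h2 : Real.logb 2 ((2 * n + 2 : ℕ) : ℝ) ≤ ((2 * n + 2 : ℕ) : ℝ) := by
    rw [Real.logb_le_iff_le_rpow one_lt_two (by linarith), Real.rpow_natCast]
    exact_mod_cast (Nat.lt_two_pow_self (n := 2 * n + 2)).le
  unfold bound
  rw [e1]
  have h3 := Real.log_nonneg h1
  have h4 : 0 ≤ 1 + ((2 * n + 2 : ℕ) : ℝ) - Real.logb 2 ((2 * n + 2 : ℕ) : ℝ) := by linarith
  positivity

end Pool.Agent.Lib.EDN
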