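import Pool.Agent.Lib.EDN.Lower
import Pool.Agent.Lib.EDN.Upper
import Pool.Agent.Lib.EDN.Conv
import Pool.Agent.Lib.EDN.Asym
import Pool.Agent.Lib.MP_a83deb_pr.Local

/-!
# The limit shape of the Eden model in high dimension
-/

set_option autoImplicit false

open MeasureTheory ENNReal Pool.Agent.Lib.MP_a83deb_pr

namespace Pool.Agent.Lib.EDN

variable {d : ℕ}

private theorem main_pos {M : EuclideanSpace ℝ (Fin d) → ℝ} (hM : IsTC nu M)
    {x : EuclideanSpace ℝ (Fin d)} (hx : x ≠ 0) : 0 < M x := by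
  have h1 := lower hM (fun i => x i) x
  have h2 : ∑ i, x i * x i = ‖x‖ ^ 2 := by
    rw [EuclideanSpace.norm_eq, Real.sq_sqrt (Finset.sum_nonneg fun i _ => sq_nonneg _)]
    refine Finset.sum_congr rfl fun i _ => ?_
    rw [Real.norm_eq_abs, sq_abs, sq]
  have h3 : 0 < ‖x‖ ^ 2 := pow_pos (norm_pos_iff.2 hx) 2
  have h4 : 0 ≤ 2 * ∑ i, Real.cosh (x i) :=
    mul_nonneg zero_le_two (Finset.sum_nonneg fun i _ => (Real.cosh_pos _).le)
  simp only at h1
  rw [h2] at h1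
  by_contra hcon
  push Not at hcon
  have := mul_nonpos_of_nonneg_of_nonpos h4 hcon
  linarith

private theorem main_far {δ : ℝ} (hd : 2 ≤ d) (hb : 0 < bound d)
    (hA : ∀ U r : ℝ, 0 < U → 1 / bound d ≤ 2 * r → g U * r ^ 2 ≤ d * U ^ 2 → (1 - δ) * r ≤ U)
    {M : EuclideanSpace ℝ (Fin d) → ℝ} (hM : IsTC nu M) {z : EuclideanSpace ℝ (Fin d)}
    (hz : M z ≤ 1) (hfar : ∀ x, M x ≤ 1 → ‖x‖ ≤ ‖z‖) : ∃ i, (1 - δ) * ‖z‖ ≤ |z i| := by
  set j : Fin d := ⟨0, by omega⟩ with hj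
  set e : EuclideanSpace ℝ (Fin d) := EuclideanSpace.single j 1 with he
  have he0 : e ≠ 0 := by
    intro h0
    have := congrArg norm h0
    simp [he] at this
  have hMe := main_pos hM he0
  have h1 : M ((M e)⁻¹ • e) ≤ 1 := by
    rw [IsTC.smul dist_nu hM (inv_pos.2 hMe).le, inv_mul_cancel₀ hMe.ne']
  have h2 : ‖(M e)⁻¹ • e‖ = (M e)⁻¹ := by
    rw [norm_smul, Real.norm_eq_abs, abs_of_pos (inv_pos.2 hMe), he]
    simp
  have h3 : 1 / bound d ≤ ‖z‖ := by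
    have h4 := hfar _ h1
    rw [h2] at h4
    refine le_trans ?_ h4
    rw [one_div]
    exact inv_anti₀ hMe (upper hM hd j)
  have hz0 : 0 < ‖z‖ := lt_of_lt_of_le (by positivity) h3
  have : Nonempty (Fin d) := ⟨j⟩
  obtain ⟨i, hi⟩ := Finite.exists_max (fun i => |z i|)
  have hi0 : 0 < |z i| := by
    by_contra hcon
    push Not at hcon
    have h5 : z = 0 := by
      ext k
      have := (hi k).trans hcon
      simpa using abs_nonpos_iff.1 this
    rw [h5, norm_zero] at hz0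
    exact lt_irrefl _ hz0
  refine ⟨i, ?_⟩
  have h6 : ∀ θ : Fin d → ℝ, ∑ i, θ i * z i ≤ 2 * ∑ i, Real.cosh (θ i) := by
    intro θ
    have h7 := lower hM θ z
    have h8 : 0 ≤ 2 * ∑ i, Real.cosh (θ i) :=
      mul_nonneg zero_le_two (Finset.sum_nonneg fun i _ => (Real.cosh_pos _).le)
    have h9 := mul_le_mul_of_nonneg_left hz h8
    linarith
  have h7 := conv' z h6 (U := |z i| / 2) (by positivity) (fun k => by
    have := hi k
    simp only at this
    linarith)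
  have h8 := hA (|z i| / 2) (‖z‖ / 2) (by positivity) (by linarith) h7
  linarith

theorem main {δ : ℝ} (hδ : 0 < δ) : ∃ d₀ : ℕ, ∀ d, d₀ ≤ d → ∀ μ, TimeConstant d nu μ →
    (∀ z, μ z ≤ 1 → (∀ x, μ x ≤ 1 → ‖x‖ ≤ ‖z‖) → ∃ i, (1 - δ) * ‖z‖ ≤ |z i|) ∧
    ∀ j : Fin d, ∃ u, Curv μ u ∧ ‖u - EuclideanSpace.single j 1‖ ≤ δ := by
  have hδ' : 0 < min δ (δ ^ 2 / 2) := lt_min hδ (by positivity)
  obtain ⟨d₀, hd₀, h⟩ := asym hδ'
  refine ⟨d₀, fun d hd μ hμ => ?_⟩
  obtain ⟨hb, hA⟩ := h d hd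
  have hd2 : 2 ≤ d := hd₀.trans hd
  have hM : IsTC nu μ := hμ.isTC dist_nu
  have hfar' : ∀ z, μ z ≤ 1 → (∀ x, μ x ≤ 1 → ‖x‖ ≤ ‖z‖) →
      ∃ i, (1 - min δ (δ ^ 2 / 2)) * ‖z‖ ≤ |z i| := fun z hz hfar =>
    main_far hd2 hb hA hM hz hfar
  refine ⟨fun z hz hfar => ?_, fun j => ?_⟩
  · obtain ⟨i, hi⟩ := hfar' z hz hfar
    refine ⟨i, le_trans ?_ hi⟩
    refine mul_le_mul_of_nonneg_right ?_ (norm_nonneg z)
    linarith [min_le_left δ (δ ^ 2 / 2)]
  · obtain ⟨a, hN⟩ := IsTC.nm' dist_nu hM (fun u hu => main_pos hM (by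
      rintro rfl
      simp at hu)) j
    obtain ⟨z, hz, hzf⟩ := hN.exists_far 0
    have hfar : ∀ x, μ x ≤ 1 → ‖x‖ ≤ ‖z‖ := fun x hx => by
      have := hzf x hx
      rwa [dist_zero_right, dist_zero_right] at this
    obtain ⟨i, hi⟩ := hfar' z hz hfar
    obtain ⟨-, hz0, -, -⟩ := hN.far_curv j hz hzf
    have hzn : 0 < ‖z‖ := norm_pos_iff.2 hz0
    set ε : Fin d → ℤˣ := fun _ => if z i < 0 then -1 else 1 with hε
    set z' := sp ε (Equiv.swap i j) z with hz'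
    have hnz' : ‖z'‖ = ‖z‖ := norm_sp _ _ _
    have hz'j : z' j = |z i| := by
      rw [hz', sp_apply, Equiv.swap_apply_right]
      simp only [hε]
      split_ifs with h0
      · rw [abs_of_neg h0]
        push_cast
        ring
      · rw [abs_of_nonneg (not_lt.1 h0)]
        push_cast
        ring
    have hMz' : μ z' ≤ 1 := by
      rw [hz', IsTC.sp dist_nu hM]
      exact hz
    obtain ⟨-, -, hcurv, -⟩ := hN.far_curv (c := 0) j hMz' (fun x hx => by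
      rw [dist_zero_right, dist_zero_right, hnz']
      exact hfar x hx)
    refine ⟨‖z'‖⁻¹ • z', hcurv, ?_⟩
    set u := ‖z'‖⁻¹ • z' with hu
    have hun : ‖u‖ = 1 := hcurv.1
    have huj : u j = |z i| / ‖z‖ := by
      rw [hu, PiLp.smul_apply, smul_eq_mul, hz'j, hnz']
      ring
    have h1 : ‖u - EuclideanSpace.single j 1‖ ^ 2 = 2 - 2 * u j := by
      rw [@norm_sub_sq_real, hun]
      have h2 : inner ℝ u (EuclideanSpace.single j (1 : ℝ)) = u j := by
        rw [EuclideanSpace.inner_single_right]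
        simp
      rw [h2]
      simp
      ring
    have h2 : 1 - δ ^ 2 / 2 ≤ u j := by
      rw [huj, le_div_iff₀ hzn]
      refine le_trans ?_ hi
      refine mul_le_mul_of_nonneg_right ?_ hzn.le
      linarith [min_le_right δ (δ ^ 2 / 2)]
    refine abs_le_of_sq_le_sq' (a := ‖u - EuclideanSpace.single j 1‖) ?_ hδ.le |>.2
    rw [h1]
    linarith

end Pool.Agent.Lib.EDN
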