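import Pool.Agent.Lib.EDN.NDefs

/-!
# The time constant of the axes from below
-/

set_option autoImplicit false

open MeasureTheory ENNReal Filter Topology Pool.Agent.Lib.MP_a83deb_pr

namespace Pool.Agent.Lib.EDN

private theorem nax_small {η : ℝ} (hη : 0 < η) : ∃ d₀ : ℕ, ∀ d : ℕ, d₀ ≤ d → (d : ℝ) ^ (-η) ≤ η := by
  have h1 : Tendsto (fun d : ℕ => (d : ℝ) ^ (-η)) atTop (𝓝 0) :=
    (tendsto_rpow_neg_atTop hη).comp tendsto_natCast_atTop_atTop
  have h2 : ∀ᶠ d : ℕ in atTop, (d : ℝ) ^ (-η) < η := h1.eventually_lt_const hη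
  obtain ⟨d₀, h3⟩ := eventually_atTop.1 h2
  exact ⟨d₀, fun d hd => (h3 d hd).le⟩

theorem naxis {ε : ℝ} (hε : 0 < ε) : ∃ d₀ : ℕ, ∀ d : ℕ, d₀ ≤ d → ∀ K m : ℝ, 0 < K →
    (∀ θ : ℝ, θ ≤ K * (2 * ((d : ℝ) - 1 + Real.cosh θ)) * m) →
      (1 - ε) * (Real.log d / (2 * d * K)) ≤ m := by
  obtain ⟨d₀, hd₀⟩ := nax_small (half_pos hε)
  refine ⟨max d₀ 1, fun d hd K m hK hm => ?_⟩
  have h1 : (1 : ℝ) ≤ d := by exact_mod_cast (le_max_right d₀ 1).trans hd
  have hd0 : (0 : ℝ) < d := by linarith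
  have hδ := hd₀ d ((le_max_left d₀ 1).trans hd)
  have hL : 0 ≤ Real.log d := Real.log_nonneg h1
  have hKd : 0 < 2 * (d : ℝ) * K := by positivity
  have hm0 : 0 ≤ m := by
    have h := hm 0
    rw [Real.cosh_zero] at h
    have h' : 0 ≤ (2 * (d : ℝ) * K) * m := by linarith
    exact nonneg_of_mul_nonneg_right h' hKd
  have hkey : (1 - ε) * Real.log d ≤ m * (2 * d * K) := by
    rcases le_or_gt 1 ε with h | h
    · have h2 : (1 - ε) * Real.log d ≤ 0 := mul_nonpos_of_nonpos_of_nonneg (by linarith) hL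
      have h3 : 0 ≤ m * (2 * d * K) := mul_nonneg hm0 hKd.le
      linarith
    · have hθ : 0 ≤ (1 - ε / 2) * Real.log d := mul_nonneg (by linarith) hL
      have hc : Real.cosh ((1 - ε / 2) * Real.log d) ≤ d * (ε / 2) := by
        have h2 : Real.cosh ((1 - ε / 2) * Real.log d) ≤ Real.exp ((1 - ε / 2) * Real.log d) := by
          rw [Real.cosh_eq]
          have h3 : Real.exp (-((1 - ε / 2) * Real.log d)) ≤ Real.exp ((1 - ε / 2) * Real.log d) :=
            Real.exp_le_exp.2 (by linarith)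
          linarith
        have h4 : Real.exp ((1 - ε / 2) * Real.log d) = d * (d : ℝ) ^ (-(ε / 2)) := by
          rw [Real.rpow_def_of_pos hd0]
          nth_rewrite 2 [← Real.exp_log hd0]
          rw [← Real.exp_add]
          congr 1
          ring
        rw [h4] at h2
        exact h2.trans (mul_le_mul_of_nonneg_left hδ hd0.le)
      have h5 := hm ((1 - ε / 2) * Real.log d)
      have h6 : K * (2 * ((d : ℝ) - 1 + Real.cosh ((1 - ε / 2) * Real.log d))) * m
          ≤ K * (2 * ((d : ℝ) * (1 + ε / 2))) * m := by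
        refine mul_le_mul_of_nonneg_right (mul_le_mul_of_nonneg_left ?_ hK.le) hm0
        linarith
      have h7 : (1 - ε / 2) * Real.log d ≤ (1 + ε / 2) * (m * (2 * d * K)) := by
        calc (1 - ε / 2) * Real.log d ≤ K * (2 * ((d : ℝ) * (1 + ε / 2))) * m := h5.trans h6
          _ = (1 + ε / 2) * (m * (2 * d * K)) := by ring
      have h8 : (1 + ε / 2) * ((1 - ε) * Real.log d) ≤ (1 - ε / 2) * Real.log d := by
        nlinarith [mul_nonneg (mul_nonneg hε.le hε.le) hL]
      have h9 : 0 < 1 + ε / 2 := by linarith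
      exact le_of_mul_le_mul_left (h8.trans h7) h9
  rw [← mul_div_assoc, div_le_iff₀ hKd]
  exact hkey

end Pool.Agent.Lib.EDN
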