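import Pool.Agent.Lib.EDN.NDefs

/-!
# Counting with sign vectors
-/

set_option autoImplicit false

open MeasureTheory ENNReal Filter Topology Pool.Agent.Lib.MP_a83deb_pr

namespace Pool.Agent.Lib.EDN

variable {d : ℕ}

private theorem ncount_prod (l : ℝ) (z : EuclideanSpace ℝ (Fin d)) :
    ∑ σ : Fin d → ℤˣ, Real.exp (l * ∑ i, ((σ i : ℤ) : ℝ) * z i) = ∏ i, (2 * Real.cosh (l * z i)) := by
  have h1 : ∀ i, 2 * Real.cosh (l * z i) = ∑ s : ℤˣ, Real.exp (l * (((s : ℤ) : ℝ) * z i)) := by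
    intro i
    have hu : (Finset.univ : Finset ℤˣ) = {1, -1} := rfl
    rw [hu, Finset.sum_pair (by decide), Real.cosh_eq]
    simp
    ring
  rw [Finset.prod_congr rfl fun i _ => h1 i, Finset.prod_univ_sum, Fintype.piFinset_univ]
  refine Finset.sum_congr rfl fun σ _ => ?_
  rw [← Real.exp_sum, Finset.mul_sum]

private theorem ncount_bd (l : ℝ) {R : ℝ} (z : EuclideanSpace ℝ (Fin d)) (hz : ‖z‖ ≤ R) :
    ∑ σ : Fin d → ℤˣ, Real.exp (l * ∑ i, ((σ i : ℤ) : ℝ) * z i) ≤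
      2 ^ d * Real.exp (l ^ 2 * R ^ 2 / 2) := by
  rw [ncount_prod, Finset.prod_mul_distrib]
  simp only [Finset.prod_const, Finset.card_univ, Fintype.card_fin]
  refine mul_le_mul_of_nonneg_left ?_ (by positivity)
  calc ∏ i, Real.cosh (l * z i) ≤ ∏ i, Real.exp ((l * z i) ^ 2 / 2) :=
        Finset.prod_le_prod (fun i _ => (Real.cosh_pos _).le) fun i _ => Real.cosh_le_exp_half_sq _
    _ = Real.exp (l ^ 2 * ‖z‖ ^ 2 / 2) := by
        rw [← Real.exp_sum, EuclideanSpace.norm_sq_eq]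
        congr 1
        rw [Finset.mul_sum, Finset.sum_div]
        refine Finset.sum_congr rfl fun i _ => ?_
        rw [Real.norm_eq_abs, sq_abs]
        ring
    _ ≤ Real.exp (l ^ 2 * R ^ 2 / 2) := by
        refine Real.exp_le_exp.2 ?_
        have h1 : ‖z‖ ^ 2 ≤ R ^ 2 := pow_le_pow_left₀ (norm_nonneg z) hz 2
        have h2 : 0 ≤ l ^ 2 := sq_nonneg l
        nlinarith

/-- Chernoff: a vector `z` with `‖z‖ ≤ R` satisfies `D ≤ ⟨z, σ⟩` for at most `2 ^ d exp (- D² / (2 R²))` sign vectors -/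
theorem ncount (Z : Finset (EuclideanSpace ℝ (Fin d))) {R D : ℝ} (hR : 0 < R) (hD : 0 ≤ D)
    (hZ : ∀ z ∈ Z, ‖z‖ ≤ R)
    (h : ∀ σ : Fin d → ℤˣ, ∃ z ∈ Z, D ≤ ∑ i, ((σ i : ℤ) : ℝ) * z i) :
    Real.exp (D ^ 2 / (2 * R ^ 2)) ≤ Z.card := by
  obtain ⟨l, hl⟩ : ∃ l : ℝ, l = D / R ^ 2 := ⟨_, rfl⟩
  have hl0 : 0 ≤ l := by
    rw [hl]
    positivity
  have h1 : ∀ σ : Fin d → ℤˣ, Real.exp (l * D) ≤ ∑ z ∈ Z, Real.exp (l * ∑ i, ((σ i : ℤ) : ℝ) * z i) := by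
    intro σ
    obtain ⟨z, hz, hz2⟩ := h σ
    refine (Real.exp_le_exp.2 (mul_le_mul_of_nonneg_left hz2 hl0)).trans ?_
    exact Finset.single_le_sum (f := fun z : EuclideanSpace ℝ (Fin d) =>
      Real.exp (l * ∑ i, ((σ i : ℤ) : ℝ) * z i)) (fun _ _ => (Real.exp_pos _).le) hz
  have h2 : (2 : ℝ) ^ d * Real.exp (l * D) ≤ Z.card * (2 ^ d * Real.exp (l ^ 2 * R ^ 2 / 2)) := by
    calc (2 : ℝ) ^ d * Real.exp (l * D) = ∑ _σ : Fin d → ℤˣ, Real.exp (l * D) := by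
          rw [Finset.sum_const, Finset.card_univ, Fintype.card_fun, Fintype.card_units_int,
            Fintype.card_fin, nsmul_eq_mul]
          push_cast
          rfl
      _ ≤ ∑ σ : Fin d → ℤˣ, ∑ z ∈ Z, Real.exp (l * ∑ i, ((σ i : ℤ) : ℝ) * z i) :=
          Finset.sum_le_sum fun σ _ => h1 σ
      _ = ∑ z ∈ Z, ∑ σ : Fin d → ℤˣ, Real.exp (l * ∑ i, ((σ i : ℤ) : ℝ) * z i) := Finset.sum_comm
      _ ≤ ∑ _z ∈ Z, 2 ^ d * Real.exp (l ^ 2 * R ^ 2 / 2) :=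
          Finset.sum_le_sum fun z hz => ncount_bd l z (hZ z hz)
      _ = Z.card * (2 ^ d * Real.exp (l ^ 2 * R ^ 2 / 2)) := by
          rw [Finset.sum_const, nsmul_eq_mul]
  have h3 : Real.exp (l * D) ≤ Z.card * Real.exp (l ^ 2 * R ^ 2 / 2) := by
    have h4 : (0 : ℝ) < 2 ^ d := by positivity
    refine le_of_mul_le_mul_left ?_ h4
    linarith
  have h5 : l * D = D ^ 2 / (2 * R ^ 2) + l ^ 2 * R ^ 2 / 2 := by
    rw [hl]
    field_simp
    ring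
  rw [h5, Real.exp_add] at h3
  exact le_of_mul_le_mul_right h3 (Real.exp_pos _)

end Pool.Agent.Lib.EDN
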