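import Pool.Agent.Lib.EDN.GLower
import Pool.Agent.Lib.EDN.Lapl

/-!
# The dual bound in high dimension
-/

set_option autoImplicit false

open MeasureTheory ENNReal Filter Topology Pool.Agent.Lib.MP_a83deb_pr

namespace Pool.Agent.Lib.EDN

theorem nlow {ν : Measure ℝ} [IsProbabilityMeasure ν] (hν : Dist ν 0) {b b' : ℝ} (hb0 : 0 < b)
    (hbb : b < b') (hF : ∀ᶠ t in 𝓝[>] (0 : ℝ), ν.real (Set.Iic t) ≤ b * t) :
    ∃ d₀ : ℕ, ∀ d : ℕ, d₀ ≤ d → ∀ M : EuclideanSpace ℝ (Fin d) → ℝ, IsTC ν M →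
      ∀ (θ : Fin d → ℝ) (x : EuclideanSpace ℝ (Fin d)),
        ∑ i, θ i * x i ≤ b' * (2 * ∑ i, Real.cosh (θ i)) * M x := by
  obtain ⟨s₀, hs₀, hL⟩ := lapl hν hb0 (b' := (b + b') / 2) (by linarith) hF
  have hK : 0 < b' := hb0.trans hbb
  obtain ⟨d₃, hd₃⟩ := exists_nat_gt (s₀ / (2 * b'))
  refine ⟨d₃ + 1, fun d hd M hM θ x => ?_⟩
  have hsum : (d : ℝ) ≤ ∑ i, Real.cosh (θ i) := by
    calc (d : ℝ) = ∑ _i : Fin d, (1 : ℝ) := by simp
      _ ≤ _ := Finset.sum_le_sum fun i _ => Real.one_le_cosh _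
  have hd0 : (0 : ℝ) < d := by
    have : 0 < d := by omega
    exact_mod_cast this
  set S := 2 * ∑ i, Real.cosh (θ i) with hS
  have hS0 : 0 < S := by
    rw [hS]
    linarith
  have hs : s₀ ≤ b' * S := by
    have h1 : s₀ < d₃ * (2 * b') := (div_lt_iff₀ (by positivity)).1 hd₃
    have h2 : (d₃ : ℝ) ≤ d := by exact_mod_cast (by omega : d₃ ≤ d)
    have h3 : (d₃ : ℝ) * (2 * b') ≤ d * (2 * b') :=
      mul_le_mul_of_nonneg_right h2 (by positivity)
    have h5 : 2 * (d : ℝ) ≤ S := by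
      rw [hS]
      linarith
    have h6 := mul_le_mul_of_nonneg_left h5 hK.le
    linarith
  have hc : 0 < (b + b') / 2 := by linarith
  refine glower hν hM (s := b' * S) (L := (b + b') / 2 / (b' * S))
    (by positivity) (by positivity) (hL _ hs) θ ?_ x
  rw [← hS, div_mul_eq_mul_div, div_lt_one (by positivity)]
  exact mul_lt_mul_of_pos_right (by linarith) hS0

end Pool.Agent.Lib.EDN
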