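import Pool.Agent.Lib.EDN.NDefs

/-!
# The least of `d` edge times
-/

set_option autoImplicit false

open MeasureTheory ENNReal Filter Topology Pool.Agent.Lib.MP_a83deb_pr

namespace Pool.Agent.Lib.EDN

private theorem ue_inj {d : ℕ} (y : Fin d → ℤ) : Function.Injective (ue y) := by
  intro i k h
  have h1 : y + Pi.single i 1 = y + Pi.single k 1 := Sym2.congr_right.1 h
  have h2 : (Pi.single i 1 : Fin d → ℤ) = Pi.single k 1 := add_left_cancel h1
  by_contra hik
  have h3 := congrFun h2 i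
  simp [hik] at h3

private theorem prob_slow {d : ℕ} {ν : Measure ℝ} [IsProbabilityMeasure ν] (S : Finset (Sym2 (Fin d → ℤ))) (c : ℝ) :
    (law d ν).real {τ | ∀ e ∈ S, c < τ e} = (1 - ν.real (Set.Iic c)) ^ S.card := by
  have h := Measure.infinitePi_pi (fun _ : Sym2 (Fin d → ℤ) => ν) (s := S)
    (t := fun _ => Set.Ioi c) (fun _ _ => measurableSet_Ioi)
  have e : {τ : Sym2 (Fin d → ℤ) → ℝ | ∀ e ∈ S, c < τ e} = Set.pi S fun _ => Set.Ioi c := by
    ext τ
    simp [Set.mem_pi]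
  have e2 : (1 - ν.real (Set.Iic c)) = ν.real (Set.Ioi c) := by
    rw [← Set.compl_Iic, probReal_compl_eq_one_sub measurableSet_Iic]
  rw [e, e2]
  simp only [Measure.real, law, h, Finset.prod_const, ENNReal.toReal_pow]

private theorem up_le {d : ℕ} (y : Fin d → ℤ) (τ : Sym2 (Fin d → ℤ) → ℝ) (i : Fin d) : up y τ ≤ τ (ue y i) :=
  ciInf_le (Set.finite_range _).bddBelow i

private theorem up_nonneg {d : ℕ} (y : Fin d → ℤ) {τ : Sym2 (Fin d → ℤ) → ℝ} (hτ : ∀ e, 0 ≤ τ e) : 0 ≤ up y τ :=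
  Real.iInf_nonneg fun _ => hτ _

private theorem measurable_up {d : ℕ} (y : Fin d → ℤ) : Measurable fun τ : Sym2 (Fin d → ℤ) → ℝ => up y τ :=
  Measurable.iInf fun _ => measurable_pi_apply _

private theorem int_min {d : ℕ} (y : Fin d → ℤ) {ν : Measure ℝ} [IsProbabilityMeasure ν] (hν : Dist ν 0) {t₀ : ℝ}
    (ht : 0 < t₀) : Integrable (fun τ => min (up y τ) t₀) (law d ν) := by
  refine Integrable.of_bound ((measurable_up y).min measurable_const).aestronglyMeasurable t₀ ?_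
  filter_upwards [hν.ae0 (d := d)] with τ hτ
  rw [Real.norm_of_nonneg (le_min (up_nonneg y hτ) ht.le)]
  exact min_le_right _ _

private theorem pow_int {a t₀ : ℝ} (ha : 0 < a) (ht : 0 < t₀) (h1 : a * t₀ ≤ 1) (d : ℕ) :
    ∫ t in (0 : ℝ)..t₀, (1 - a * t) ^ d ≤ 1 / (a * (d + 1)) := by
  have hd : (0 : ℝ) < (d : ℝ) + 1 := by positivity
  have hder : ∀ t ∈ Set.uIcc (0 : ℝ) t₀, HasDerivAt (fun t : ℝ => -((1 - a * t) ^ (d + 1)) / (a * (d + 1)))
      ((1 - a * t) ^ d) t := by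
    intro t _
    have h2 : HasDerivAt (fun t : ℝ => 1 - a * t) (-a) t := by
      have h := ((hasDerivAt_id t).const_mul a).const_sub 1
      simpa using h
    have h3 := ((h2.pow (d + 1)).neg).div_const (a * (d + 1))
    refine h3.congr_deriv ?_
    rw [Nat.add_sub_cancel]
    push_cast
    have ha' := ha.ne'
    have hd' := hd.ne'
    field_simp
  rw [intervalIntegral.integral_eq_sub_of_hasDerivAt hder
    (Continuous.intervalIntegrable (by fun_prop) _ _)]
  have h4 : 0 ≤ (1 - a * t₀) ^ (d + 1) / (a * (d + 1)) :=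
    div_nonneg (pow_nonneg (by linarith) _) (by positivity)
  rw [mul_zero, sub_zero, one_pow, neg_div, neg_div]
  linarith

private theorem part1 {d : ℕ} (hd : 1 ≤ d) {ν : Measure ℝ} [IsProbabilityMeasure ν] (hν : Dist ν 0) {a t₀ : ℝ}
    (ha : 0 < a) (ht : 0 < t₀) (hF : ∀ t, 0 < t → t ≤ t₀ → a * t ≤ ν.real (Set.Iic t)) :
    ∫ τ, min (up (0 : Fin d → ℤ) τ) t₀ ∂law d ν ≤ 1 / (a * (d + 1)) := by
  classical
  have hnn : 0 ≤ᵐ[law d ν] fun τ => min (up (0 : Fin d → ℤ) τ) t₀ := by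
    filter_upwards [hν.ae0 (d := d)] with τ hτ using le_min (up_nonneg _ hτ) ht.le
  rw [(int_min 0 hν ht).integral_eq_integral_meas_lt hnn]
  have h1 : ∀ t, 0 < t → t ≤ t₀ → a * t ≤ 1 := fun t h2 h3 => (hF t h2 h3).trans measureReal_le_one
  have key : ∀ t ∈ Set.Ioi (0 : ℝ), (law d ν).real {τ | t < min (up (0 : Fin d → ℤ) τ) t₀} ≤
      (Set.Ioc 0 t₀).indicator (fun t => (1 - a * t) ^ d) t := by
    intro t ht1
    have ht1' : 0 < t := ht1
    by_cases ht2 : t ≤ t₀
    · have hmem : t ∈ Set.Ioc (0 : ℝ) t₀ := ⟨ht1', ht2⟩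
      rw [Set.indicator_of_mem hmem]
      have h3 : (law d ν).real {τ | t < min (up (0 : Fin d → ℤ) τ) t₀} ≤
          (law d ν).real {τ | ∀ e ∈ Finset.univ.image (ue (0 : Fin d → ℤ)), t < τ e} := by
        refine measureReal_mono ?_
        intro τ hτ e he
        obtain ⟨i, -, rfl⟩ := Finset.mem_image.1 he
        exact (lt_of_lt_of_le hτ (min_le_left _ _)).trans_le (up_le 0 τ i)
      refine h3.trans ?_
      rw [prob_slow, Finset.card_image_of_injective _ (ue_inj 0), Finset.card_univ, Fintype.card_fin]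
      refine pow_le_pow_left₀ ?_ ?_ d
      · have : ν.real (Set.Iic t) ≤ 1 := measureReal_le_one
        linarith
      · linarith [hF t ht1' ht2]
    · have h4 : {τ : Sym2 (Fin d → ℤ) → ℝ | t < min (up (0 : Fin d → ℤ) τ) t₀} = ∅ := by
        rw [Set.eq_empty_iff_forall_notMem]
        intro τ hτ
        have h5 : t < min (up (0 : Fin d → ℤ) τ) t₀ := hτ
        exact ht2 (h5.le.trans (min_le_right _ _))
      rw [h4, Set.indicator_of_notMem (fun h => ht2 h.2)]
      simp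
  have hcont : Continuous fun t : ℝ => (1 - a * t) ^ d := by fun_prop
  have hg : Integrable ((Set.Ioc 0 t₀).indicator (fun t => (1 - a * t) ^ d)) (volume.restrict (Set.Ioi (0 : ℝ))) := by
    have h6 : IntegrableOn (fun t : ℝ => (1 - a * t) ^ d) (Set.Ioc 0 t₀) volume :=
      (hcont.integrableOn_Icc (a := 0) (b := t₀)).mono_set Set.Ioc_subset_Icc_self
    exact ((integrable_indicator_iff measurableSet_Ioc).2 h6).restrict
  refine (integral_mono_of_nonneg (Eventually.of_forall fun _ => measureReal_nonneg) hg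
    (ae_restrict_of_forall_mem measurableSet_Ioi key)).trans ?_
  rw [setIntegral_indicator measurableSet_Ioc]
  have h7 : Set.Ioi (0 : ℝ) ∩ Set.Ioc 0 t₀ = Set.Ioc 0 t₀ :=
    Set.inter_eq_right.2 fun t h => h.1
  rw [h7, ← intervalIntegral.integral_of_le ht.le]
  exact pow_int ha ht (h1 t₀ ht le_rfl) d

private theorem part2 {d : ℕ} (hd : 1 ≤ d) {ν : Measure ℝ} [IsProbabilityMeasure ν] (hν : Dist ν 0) {t₀ : ℝ}
    (ht : 0 < t₀) : ∫ τ, up (0 : Fin d → ℤ) τ ∂law d ν ≤
      ∫ τ, min (up (0 : Fin d → ℤ) τ) t₀ ∂law d ν + mean ν * (1 - ν.real (Set.Iic t₀)) ^ (d - 1) := by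
  classical
  set i₀ : Fin d := ⟨0, hd⟩ with hi
  set S : Finset (Sym2 (Fin d → ℤ)) := (Finset.univ.erase i₀).image (ue (0 : Fin d → ℤ)) with hS
  set B : Set (Sym2 (Fin d → ℤ) → ℝ) := {τ | ∀ e ∈ S, t₀ < τ e} with hB
  have hcard : S.card = d - 1 := by
    rw [hS, Finset.card_image_of_injective _ (ue_inj 0), Finset.card_erase_of_mem (Finset.mem_univ _),
      Finset.card_univ, Fintype.card_fin]
  have hBm : MeasurableSet B := by
    have e : B = ⋂ e ∈ S, (fun τ : Sym2 (Fin d → ℤ) → ℝ => τ e) ⁻¹' Set.Ioi t₀ := by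
      ext τ
      simp [hB]
    rw [e]
    exact Finset.measurableSet_biInter _ fun e _ => measurable_pi_apply e measurableSet_Ioi
  have hmI : Measurable (B.indicator fun _ => (1 : ℝ)) := measurable_const.indicator hBm
  have h1 := indep_mul (d := d) (ν := ν) (f := B.indicator fun _ => (1 : ℝ)) (g := fun τ => τ (ue 0 i₀)) hmI
    (measurable_pi_apply _) (S := S) (S' := {ue 0 i₀}) (by
      rw [Finset.disjoint_singleton_right, hS, Finset.mem_image]
      rintro ⟨i, h2, h3⟩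
      exact (Finset.mem_erase.1 h2).1 (ue_inj 0 h3)) (by
      intro τ τ' h2
      have h3 : τ ∈ B ↔ τ' ∈ B := by
        constructor
        · intro h4 e he
          rw [← h2 e he]
          exact h4 e he
        · intro h4 e he
          rw [h2 e he]
          exact h4 e he
      by_cases h4 : τ ∈ B
      · rw [Set.indicator_of_mem h4, Set.indicator_of_mem (h3.1 h4)]
      · rw [Set.indicator_of_notMem h4, Set.indicator_of_notMem (fun h => h4 (h3.2 h))]) (by
      intro τ τ' h2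
      exact h2 _ (by simp))
  have h2 : ∫ τ, B.indicator (fun _ => (1 : ℝ)) τ ∂law d ν = (1 - ν.real (Set.Iic t₀)) ^ (d - 1) := by
    rw [integral_indicator hBm, integral_const, smul_eq_mul, mul_one]
    have : (law d ν).real B = (1 - ν.real (Set.Iic t₀)) ^ (d - 1) := by
      rw [hB, prob_slow, hcard]
    simpa using this
  rw [h2, Pool.Agent.Lib.MP_a83deb_pr.integral_eval] at h1
  have hint2 : Integrable (fun τ => B.indicator (fun _ => (1 : ℝ)) τ * τ (ue 0 i₀)) (law d ν) := by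
    refine (hν.int_eval (ue 0 i₀)).mono' (hmI.mul (measurable_pi_apply _)).aestronglyMeasurable ?_
    filter_upwards [hν.ae0 (d := d)] with τ hτ
    by_cases h4 : τ ∈ B
    · rw [Set.indicator_of_mem h4, one_mul, Real.norm_of_nonneg (hτ _)]
    · rw [Set.indicator_of_notMem h4, zero_mul, norm_zero]
      exact hτ _
  calc ∫ τ, up (0 : Fin d → ℤ) τ ∂law d ν
      ≤ ∫ τ, (min (up (0 : Fin d → ℤ) τ) t₀ + B.indicator (fun _ => (1 : ℝ)) τ * τ (ue 0 i₀)) ∂law d ν := by
        refine integral_mono_of_nonneg ?_ ((int_min 0 hν ht).add hint2) ?_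
        · filter_upwards [hν.ae0 (d := d)] with τ hτ using up_nonneg _ hτ
        · filter_upwards [hν.ae0 (d := d)] with τ hτ
          rcases le_or_gt (up (0 : Fin d → ℤ) τ) t₀ with h4 | h4
          · rw [min_eq_left h4]
            have h5 : 0 ≤ B.indicator (fun _ => (1 : ℝ)) τ * τ (ue 0 i₀) :=
              mul_nonneg (Set.indicator_nonneg (fun _ _ => zero_le_one) _) (hτ _)
            linarith
          · have h5 : τ ∈ B := by
              intro e he
              obtain ⟨i, -, rfl⟩ := Finset.mem_image.1 he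
              exact h4.trans_le (up_le 0 τ i)
            rw [Set.indicator_of_mem h5, one_mul, min_eq_right h4.le]
            linarith [up_le 0 τ i₀]
    _ = _ := by
        rw [integral_add (int_min 0 hν ht) hint2, h1]
        ring

theorem nmin {ν : Measure ℝ} [IsProbabilityMeasure ν] (hν : Dist ν 0) {a : ℝ} (ha : 0 < a)
    (hF : ∀ᶠ t in 𝓝[>] (0 : ℝ), a * t ≤ ν.real (Set.Iic t)) {ε : ℝ} (hε : 0 < ε) :
    ∃ d₀ : ℕ, ∀ d : ℕ, d₀ ≤ d →
      (d : ℝ) * ∫ τ, up (0 : Fin d → ℤ) τ ∂law d ν ≤ (1 + ε) / a := by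
  obtain ⟨u, hu, hu2⟩ := mem_nhdsGT_iff_exists_Ioo_subset.1 hF
  have hu0 : (0 : ℝ) < u := hu
  have hF' : ∀ t, 0 < t → t ≤ u / 2 → a * t ≤ ν.real (Set.Iic t) := fun t h1 h2 => hu2 ⟨h1, by linarith⟩
  have ht : 0 < u / 2 := by linarith
  set q : ℝ := 1 - ν.real (Set.Iic (u / 2)) with hq
  have hq0 : 0 ≤ q := by
    have : ν.real (Set.Iic (u / 2)) ≤ 1 := measureReal_le_one
    linarith
  have hq1 : q < 1 := by
    have h1 := hF' (u / 2) ht le_rfl
    have h2 : 0 < a * (u / 2) := mul_pos ha ht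
    linarith
  have hm := hν.mean_nonneg
  have h1 := (tendsto_self_mul_const_pow_of_lt_one hq0 hq1).const_mul (2 * mean ν)
  rw [mul_zero] at h1
  obtain ⟨N, hN⟩ := eventually_atTop.1 (h1.eventually (gt_mem_nhds (div_pos hε ha)))
  refine ⟨N + 2, fun d hd => ?_⟩
  obtain ⟨n, rfl⟩ : ∃ n, d = n + 1 := ⟨d - 1, by omega⟩
  have hn : (1 : ℝ) ≤ n := by
    have : 1 ≤ n := by omega
    exact_mod_cast this
  have h2 := hN n (by omega)
  have h3 := part1 (d := n + 1) (by omega) hν ha ht hF'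
  have h4 := part2 (d := n + 1) (by omega) hν ht
  rw [Nat.add_sub_cancel, ← hq] at h4
  have h5 : ∫ τ, up (0 : Fin (n + 1) → ℤ) τ ∂law (n + 1) ν ≤ 1 / (a * (((n + 1 : ℕ) : ℝ) + 1)) + mean ν * q ^ n := by
    linarith
  have h6 : ((n + 1 : ℕ) : ℝ) * (1 / (a * (((n + 1 : ℕ) : ℝ) + 1))) ≤ 1 / a := by
    push_cast
    rw [mul_one_div, div_le_div_iff₀ (by positivity) ha]
    nlinarith
  have h7 : ((n + 1 : ℕ) : ℝ) * (mean ν * q ^ n) ≤ ε / a := by
    push_cast
    have h8 : 0 ≤ mean ν * q ^ n := mul_nonneg hm (pow_nonneg hq0 _)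
    have h9 : ((n : ℝ) + 1) * (mean ν * q ^ n) ≤ (2 * n) * (mean ν * q ^ n) :=
      mul_le_mul_of_nonneg_right (by linarith) h8
    have h10 : 2 * mean ν * ((n : ℝ) * q ^ n) < ε / a := h2
    linarith
  calc ((n + 1 : ℕ) : ℝ) * ∫ τ, up (0 : Fin (n + 1) → ℤ) τ ∂law (n + 1) ν
      ≤ ((n + 1 : ℕ) : ℝ) * (1 / (a * (((n + 1 : ℕ) : ℝ) + 1)) + mean ν * q ^ n) :=
        mul_le_mul_of_nonneg_left h5 (by positivity)
    _ ≤ 1 / a + ε / a := by
        rw [mul_add]
        exact add_le_add h6 h7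
    _ = (1 + ε) / a := by ring

end Pool.Agent.Lib.EDN
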