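import Pool.Agent.Lib.EDN.GMain
import Pool.Agent.Lib.EDN.NUp
import Pool.Agent.Lib.EDN.NLow
import Pool.Agent.Lib.EDN.NMin
import Pool.Agent.Lib.EDN.NCount
import Pool.Agent.Lib.EDN.NAxis
import Pool.Agent.Lib.MP_a83deb_pr.Milman

/-!
# The number of directions of curvature in high dimension
-/

set_option autoImplicit false

open MeasureTheory ENNReal Filter Topology Pool.Agent.Lib.MP_a83deb_pr

namespace Pool.Agent.Lib.EDN

variable {d : ℕ} {ν : Measure ℝ} [IsProbabilityMeasure ν]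

/-- counting with the support function in the directions of the sign vectors -/
private theorem nmain_count {M : EuclideanSpace ℝ (Fin d) → ℝ} {α β : ℝ} (hN : Nm M α β)
    (j : Fin d) (hsp : ∀ ε π x, M (sp ε π x) = M x) {R D : ℝ} (hR : 0 < R) (hD : 0 ≤ D)
    (hnorm : ∀ x, M x ≤ 1 → ‖x‖ ≤ R) (hM1 : D * M (WithLp.toLp 2 fun _ => (1 : ℝ)) ≤ d)
    {N : ℕ} (hNexp : (N : ℝ) ≤ Real.exp (D ^ 2 / (2 * R ^ 2))) :
    (N : ℕ∞) ≤ {u | Curv M u}.encard := by
  classical
  by_cases hfin : {u | Curv M u}.Finite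
  swap
  · rw [Set.Infinite.encard_eq hfin]
    exact le_top
  set S := hfin.toFinset with hS
  set Z : Finset (EuclideanSpace ℝ (Fin d)) := S.image fun u => (M u)⁻¹ • u with hZ
  have hpts : pts M = (Z : Set (EuclideanSpace ℝ (Fin d))) := by
    ext z
    simp only [hZ, hS, Finset.coe_image, Set.Finite.coe_toFinset, Set.mem_image]
    constructor
    · rintro ⟨u, hu, rfl⟩
      exact ⟨u, hu, rfl⟩
    · rintro ⟨u, hu, rfl⟩
      exact ⟨u, hu, rfl⟩
  have hhull := hN.hull j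
  have hZW : ∀ z ∈ Z, M z ≤ 1 := by
    intro z hz
    have h1 : z ∈ pts M := by
      rw [hpts]
      exact hz
    exact hN.pts_subset h1
  have hcount := ncount Z hR hD (fun z hz => hnorm z (hZW z hz)) (by
    intro σ
    set s : EuclideanSpace ℝ (Fin d) := WithLp.toLp 2 fun i => ((σ i : ℤ) : ℝ) with hs
    have hssp : s = sp σ (Equiv.refl _) (WithLp.toLp 2 fun _ => (1 : ℝ)) := by
      ext i
      rw [sp_apply]
      simp [hs]
    have hMs : M s = M (WithLp.toLp 2 fun _ => (1 : ℝ)) := by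
      rw [hssp, hsp]
    have hs0 : s ≠ 0 := by
      intro h0
      have h1 := congrArg (fun x : EuclideanSpace ℝ (Fin d) => x j) h0
      simp [hs] at h1
    have hMs0 : 0 < M s := hN.pos hs0
    set p := (M s)⁻¹ • s with hp
    have hMp : M p ≤ 1 := by
      rw [hp, hN.smul _ (inv_pos.2 hMs0).le, inv_mul_cancel₀ hMs0.ne']
    have hne : Z.Nonempty := by
      by_contra hcon
      rw [Finset.not_nonempty_iff_eq_empty] at hcon
      rw [hpts, hcon, Finset.coe_empty, convexHull_empty, closure_empty] at hhull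
      have h1 : p ∈ ({x | M x ≤ 1} : Set (EuclideanSpace ℝ (Fin d))) := hMp
      rw [hhull] at h1
      exact h1
    obtain ⟨z₀, hz₀, hmax⟩ := Z.exists_max_image
      (fun z => ∑ i, ((σ i : ℤ) : ℝ) * z i) hne
    refine ⟨z₀, hz₀, ?_⟩
    set c := ∑ i, ((σ i : ℤ) : ℝ) * z₀ i with hc
    have hlin : ∀ x : EuclideanSpace ℝ (Fin d), ∑ i, ((σ i : ℤ) : ℝ) * x i = inner ℝ x s := by
      intro x
      rw [PiLp.inner_apply]
      refine Finset.sum_congr rfl fun i _ => ?_
      simp [hs]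
    have hsub : {x | M x ≤ 1} ⊆ {x : EuclideanSpace ℝ (Fin d) | inner ℝ x s ≤ c} := by
      rw [hhull, hpts]
      refine closure_minimal (convexHull_min ?_ ?_) ?_
      · intro z hz
        show inner ℝ z s ≤ c
        rw [← hlin]
        exact hmax z hz
      · intro x hx y hy t u ht hu htu
        have hx' : inner ℝ x s ≤ c := hx
        have hy' : inner ℝ y s ≤ c := hy
        show inner ℝ (t • x + u • y) s ≤ c
        rw [inner_add_left, real_inner_smul_left, real_inner_smul_left]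
        calc t * inner ℝ x s + u * inner ℝ y s ≤ t * c + u * c :=
              add_le_add (mul_le_mul_of_nonneg_left hx' ht) (mul_le_mul_of_nonneg_left hy' hu)
          _ = c := by rw [← add_mul, htu, one_mul]
      · exact isClosed_le (continuous_id.inner continuous_const) continuous_const
    have h1 : inner ℝ p s ≤ c := hsub hMp
    have h2 : inner ℝ p s = (M s)⁻¹ * d := by
      rw [hp, real_inner_smul_left, ← hlin]
      congr 1
      have h3 : ∀ i ∈ (Finset.univ : Finset (Fin d)), ((σ i : ℤ) : ℝ) * s i = 1 := by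
        intro i _
        show ((σ i : ℤ) : ℝ) * ((σ i : ℤ) : ℝ) = 1
        rcases unit_cases (σ i) with h | h <;> rw [h] <;> norm_num
      rw [Finset.sum_congr rfl h3]
      simp
    rw [h2] at h1
    refine le_trans ?_ h1
    rw [← hMs] at hM1
    rw [inv_mul_eq_div, le_div_iff₀ hMs0]
    exact hM1)
  have h1 : (N : ℝ) ≤ (S.card : ℝ) := by
    refine (hNexp.trans hcount).trans ?_
    exact_mod_cast Finset.card_image_le
  have h2 : N ≤ S.card := by exact_mod_cast h1
  rw [hfin.encard_eq_coe_toFinset_card]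
  exact_mod_cast h2

theorem nmain (hν : Dist ν 0) {a b : ℝ} (ha : 0 < a) (hab : a ≤ b)
    (hF : ∀ᶠ t in 𝓝[>] (0 : ℝ), a * t ≤ ν.real (Set.Iic t) ∧ ν.real (Set.Iic t) ≤ b * t)
    {δ : ℝ} (hδ : 0 < δ) : ∃ d₀ : ℕ, ∀ d, d₀ ≤ d → ∀ μ, TimeConstant d ν μ →
      ∀ N : ℕ, (N : ℝ) ≤ Real.exp (((a / b) ^ 4 / 8 - δ) * Real.log d ^ 2) →
        (N : ℕ∞) ≤ {u | Curv μ u}.encard := by
  have hb0 : 0 < b := lt_of_lt_of_le ha hab
  set ρ := a / b with hρ
  have hρ0 : 0 < ρ := div_pos ha hb0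
  have hρ1 : ρ ≤ 1 := (div_le_one hb0).2 hab
  set ε := min δ (1 / 8) with hεdef
  have hε0 : 0 < ε := lt_min hδ (by norm_num)
  have hε1 : ε ≤ δ := min_le_left _ _
  have hε2 : ε ≤ 1 / 8 := min_le_right _ _
  obtain ⟨d₁, hd₁⟩ := gmain hν ha hab hF (δ := ε * ρ) (by positivity)
  obtain ⟨d₂, hd₂⟩ := nlow hν hb0 (b' := b * (1 + ε)) (by nlinarith) (hF.mono fun t ht => ht.2)
  obtain ⟨d₃, hd₃⟩ := nmin hν ha (hF.mono fun t ht => ht.1) hε0
  obtain ⟨d₄, hd₄⟩ := naxis hε0
  refine ⟨d₁ + d₂ + d₃ + d₄ + 2, fun d hd μ hμ N hN => ?_⟩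
  have hM : IsTC ν μ := hμ.isTC hν
  have hd2 : 2 ≤ d := by omega
  have hdpos : (0 : ℝ) < d := by
    have : 0 < d := by omega
    exact_mod_cast this
  set j : Fin d := ⟨0, by omega⟩ with hj
  have hlow := hd₂ d (by omega) μ hM
  have hK : 0 < b * (1 + ε) := by positivity
  have hlogd : 0 < Real.log d := Real.log_pos (by exact_mod_cast (by omega : 1 < d))
  -- positivity
  have hpos : ∀ x : EuclideanSpace ℝ (Fin d), x ≠ 0 → 0 < μ x := by
    intro x hx
    have h1 := hlow (fun i => x i) x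
    have h2 : ∑ i, x i * x i = ‖x‖ ^ 2 := by
      rw [EuclideanSpace.norm_eq, Real.sq_sqrt (Finset.sum_nonneg fun i _ => sq_nonneg _)]
      refine Finset.sum_congr rfl fun i _ => ?_
      rw [Real.norm_eq_abs, sq_abs, sq]
    have h3 : 0 < ‖x‖ ^ 2 := pow_pos (norm_pos_iff.2 hx) 2
    have h4 : 0 ≤ b * (1 + ε) * (2 * ∑ i, Real.cosh (x i)) :=
      mul_nonneg hK.le (mul_nonneg zero_le_two (Finset.sum_nonneg fun i _ => (Real.cosh_pos _).le))
    simp only at h1
    rw [h2] at h1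
    by_contra hcon
    push Not at hcon
    have := mul_nonpos_of_nonneg_of_nonpos h4 hcon
    linarith
  obtain ⟨α, hNm⟩ := IsTC.nm' hν hM (fun u hu => hpos u (by
    rintro rfl
    simp at hu)) j
  -- the axis
  have hej0 : EuclideanSpace.single j (1 : ℝ) ≠ 0 := by
    intro h0
    have := congrArg norm h0
    simp at this
  have hej := hpos _ hej0
  have haxis : (1 - ε) * (Real.log d / (2 * d * (b * (1 + ε)))) ≤
      μ (EuclideanSpace.single j 1) := by
    refine hd₄ d (by omega) (b * (1 + ε)) _ hK fun θ => ?_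
    have h1 := hlow (Pi.single j θ) (EuclideanSpace.single j 1)
    have h2 : ∑ i, (Pi.single j θ : Fin d → ℝ) i * (EuclideanSpace.single j (1 : ℝ)) i = θ := by
      rw [Finset.sum_eq_single j]
      · simp
      · intro i _ hi
        simp [hi]
      · simp
    have h3 : ∑ i, Real.cosh ((Pi.single j θ : Fin d → ℝ) i) = (d : ℝ) - 1 + Real.cosh θ := by
      rw [← Finset.add_sum_erase Finset.univ _ (Finset.mem_univ j)]
      have h4 : ∑ i ∈ Finset.univ.erase j, Real.cosh ((Pi.single j θ : Fin d → ℝ) i) =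
          ∑ _i ∈ Finset.univ.erase j, (1 : ℝ) := by
        refine Finset.sum_congr rfl fun i hi => ?_
        rw [Pi.single_eq_of_ne (Finset.ne_of_mem_erase hi), Real.cosh_zero]
      rw [h4, Finset.sum_const, Finset.card_erase_of_mem (Finset.mem_univ j), Finset.card_univ,
        Fintype.card_fin, nsmul_eq_mul, mul_one, Pi.single_eq_same,
        Nat.cast_sub (by omega : 1 ≤ d)]
      push_cast
      ring
    rw [h2, h3] at h1
    exact h1
  -- the radius
  obtain ⟨hC, -, -⟩ := hd₁ d (by omega) μ hμ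
  have hq : 0 < ρ - ε * ρ := by nlinarith
  set R := 1 / ((ρ - ε * ρ) * μ (EuclideanSpace.single j 1)) with hR
  have hR0 : 0 < R := by positivity
  have hnorm : ∀ x, μ x ≤ 1 → ‖x‖ ≤ R := by
    intro x hx
    rw [hR, le_div_iff₀ (by positivity)]
    have := hC x j
    linarith
  -- the diagonal
  set D := (d : ℝ) * a / (1 + ε) with hDdef
  have hD0 : 0 < D := by positivity
  have hM1 : D * μ (WithLp.toLp 2 fun _ => (1 : ℝ)) ≤ d := by
    have h1 := (nup hν hM (by omega)).trans (hd₃ d (by omega))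
    calc D * μ (WithLp.toLp 2 fun _ => (1 : ℝ)) ≤ D * ((1 + ε) / a) :=
          mul_le_mul_of_nonneg_left h1 hD0.le
      _ = d := by
          rw [hDdef]
          field_simp
  refine nmain_count hNm j (fun ε π x => IsTC.sp hν hM ε π x) hR0 hD0.le hnorm hM1
    (hN.trans (Real.exp_le_exp.2 ?_))
  -- the exponent
  set L := Real.log d with hL
  have h1 : D ^ 2 / (2 * R ^ 2) =
      (D * ((ρ - ε * ρ) * μ (EuclideanSpace.single j 1))) ^ 2 / 2 := by
    rw [hR]
    field_simp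
  have h2 : ρ ^ 2 * ((1 - ε) / (1 + ε)) ^ 2 * L / 2 ≤
      D * ((ρ - ε * ρ) * μ (EuclideanSpace.single j 1)) := by
    have h3 : D * ((ρ - ε * ρ) * ((1 - ε) * (L / (2 * d * (b * (1 + ε)))))) =
        ρ ^ 2 * ((1 - ε) / (1 + ε)) ^ 2 * L / 2 := by
      rw [hDdef, hρ]
      field_simp
    rw [← h3]
    exact mul_le_mul_of_nonneg_left (mul_le_mul_of_nonneg_left haxis hq.le) hD0.le
  have h0 : 0 ≤ ρ ^ 2 * ((1 - ε) / (1 + ε)) ^ 2 * L / 2 := by
    have : 0 ≤ (1 - ε) / (1 + ε) := div_nonneg (by linarith) (by linarith)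
    positivity
  have h4 : (ρ ^ 2 * ((1 - ε) / (1 + ε)) ^ 2 * L / 2) ^ 2 ≤
      (D * ((ρ - ε * ρ) * μ (EuclideanSpace.single j 1))) ^ 2 := pow_le_pow_left₀ h0 h2 2
  rw [h1]
  refine le_trans ?_ (div_le_div_of_nonneg_right h4 zero_le_two)
  have h5 : 1 - 2 * ε ≤ (1 - ε) / (1 + ε) := by
    rw [le_div_iff₀ (by linarith)]
    nlinarith
  have h6 : 1 - 8 * ε ≤ ((1 - ε) / (1 + ε)) ^ 4 := by
    calc 1 - 8 * ε ≤ (1 - 2 * ε) ^ 4 := by
          have := one_add_mul_le_pow (a := -(2 * ε)) (by linarith) 4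
          push_cast at this
          have h7 : (1 + -(2 * ε)) ^ 4 = (1 - 2 * ε) ^ 4 := by ring
          rw [h7] at this
          linarith
      _ ≤ _ := pow_le_pow_left₀ (by linarith) h5 4
  have h7 : (ρ ^ 2 * ((1 - ε) / (1 + ε)) ^ 2 * L / 2) ^ 2 / 2 =
      ρ ^ 4 / 8 * ((1 - ε) / (1 + ε)) ^ 4 * L ^ 2 := by ring
  rw [h7]
  refine mul_le_mul_of_nonneg_right ?_ (sq_nonneg L)
  have h8 : ρ ^ 4 / 8 * (1 - 8 * ε) ≤ ρ ^ 4 / 8 * ((1 - ε) / (1 + ε)) ^ 4 :=
    mul_le_mul_of_nonneg_left h6 (by positivity)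
  have h9 : ρ ^ 4 ≤ 1 := pow_le_one₀ hρ0.le hρ1
  have h10 : ρ ^ 4 * ε ≤ 1 * ε := mul_le_mul_of_nonneg_right h9 hε0.le
  nlinarith

end Pool.Agent.Lib.EDN
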