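import Pool.Agent.Lib.EDN.Fam
import Pool.Agent.Lib.EDN.HalfMap
import Pool.Agent.Lib.EDN.Indep

/-!
# One step of the greedy path
-/

set_option autoImplicit false

open MeasureTheory ENNReal Pool.Agent.Lib.MP_a83deb_pr

namespace Pool.Agent.Lib.EDN

variable {d : ℕ}

variable {j : Fin d}

/-- the passage times seen from `y` -/
private def stepSh (y : Fin d → ℤ) (τ : Sym2 (Fin d → ℤ) → ℝ) : Sym2 (Fin d → ℤ) → ℝ :=
  fun e => τ (e.map (transl y))

private theorem step_mp (y : Fin d → ℤ) : MeasurePreserving (stepSh y) (law d nu) (law d nu) := by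
  let f := transl y
  let e : Sym2 (Fin d → ℤ) ≃ Sym2 (Fin d → ℤ) :=
    { toFun := Sym2.map f
      invFun := Sym2.map f.symm
      left_inv := fun z => by
        rw [Sym2.map_map]
        have : (⇑f.symm ∘ ⇑f) = id := by funext z; simp
        rw [this, Sym2.map_id]; rfl
      right_inv := fun z => by
        rw [Sym2.map_map]
        have : (⇑f ∘ ⇑f.symm) = id := by funext z; simp
        rw [this, Sym2.map_id]; rfl }
  have hmeas : Measurable (stepSh (d := d) y) :=
    measurable_pi_lambda _ fun z => measurable_pi_apply _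
  refine ⟨hmeas, ?_⟩
  have h2 := Measure.infinitePi_map_piCongrLeft (X := fun _ : Sym2 (Fin d → ℤ) => ℝ)
    (μ := fun _ => nu) e
  have h4 : law d nu = Measure.map (MeasurableEquiv.piCongrLeft (fun _ : Sym2 (Fin d → ℤ) => ℝ) e)
      (law d nu) := h2.symm
  conv_lhs => rw [h4]
  rw [Measure.map_map hmeas (MeasurableEquiv.measurable _)]
  have h5 : stepSh y ∘ (MeasurableEquiv.piCongrLeft (fun _ : Sym2 (Fin d → ℤ) => ℝ) e) = id := by
    funext τ z
    exact Equiv.piCongrLeft_apply_apply (fun _ : Sym2 (Fin d → ℤ) => ℝ) e τ z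
  rw [h5, Measure.map_id]

private theorem step_int (y : Fin d → ℤ) {g : (Sym2 (Fin d → ℤ) → ℝ) → ℝ} (hg : Measurable g) :
    ∫ τ, g (stepSh y τ) ∂law d nu = ∫ τ, g τ ∂law d nu := by
  have h := MeasureTheory.integral_map (μ := law d nu) (step_mp y).measurable.aemeasurable
    (f := g) hg.aestronglyMeasurable
  rw [(step_mp y).map_eq] at h
  exact h.symm

/-- the first index with the least cost is `i` -/
private def stepG (F : Fam j) (i : Fin F.n) : Set (Sym2 (Fin d → ℤ) → ℝ) :=
  {τ | (∀ k, F.cost i τ ≤ F.cost k τ) ∧ ∀ k < i, F.cost i τ < F.cost k τ}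

private theorem step_meas_cost (F : Fam j) (i : Fin F.n) : Measurable (F.cost i) :=
  (measurable_passage (F.w i)).add (measurable_pi_apply _)

private theorem step_int_cost (F : Fam j) (i : Fin F.n) : Integrable (F.cost i) (law d nu) :=
  (dist_nu.int_passage (F.w i)).add (dist_nu.int_eval _)

private theorem step_meas (F : Fam j) (i : Fin F.n) : MeasurableSet (stepG F i) := by
  have h1 : stepG F i = (⋂ k, {τ | F.cost i τ ≤ F.cost k τ}) ∩
      ⋂ k, ⋂ (_ : k < i), {τ | F.cost i τ < F.cost k τ} := by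
    ext τ
    simp only [stepG, Set.mem_ofPred_eq, Set.mem_inter_iff, Set.mem_iInter]
  rw [h1]
  refine MeasurableSet.inter (MeasurableSet.iInter fun k => ?_)
    (MeasurableSet.iInter fun k => MeasurableSet.iInter fun _ => ?_)
  · exact measurableSet_le (step_meas_cost F i) (step_meas_cost F k)
  · exact measurableSet_lt (step_meas_cost F i) (step_meas_cost F k)

private noncomputable def stepI (F : Fam j) (i : Fin F.n) (τ : Sym2 (Fin d → ℤ) → ℝ) : ℝ :=
  (stepG F i).indicator (fun _ => (1 : ℝ)) τ

private theorem step_nonneg (F : Fam j) (i : Fin F.n) (τ : Sym2 (Fin d → ℤ) → ℝ) :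
    0 ≤ stepI F i τ := Set.indicator_nonneg (fun _ _ => zero_le_one) τ

private theorem step_sum (F : Fam j) (τ : Sym2 (Fin d → ℤ) → ℝ) : ∑ i, stepI F i τ = 1 := by
  classical
  have hne : Nonempty (Fin F.n) := ⟨⟨0, F.hn⟩⟩
  let M : Finset (Fin F.n) := Finset.univ.filter fun i => ∀ k, F.cost i τ ≤ F.cost k τ
  have hM : M.Nonempty := by
    obtain ⟨i, hi⟩ := Finite.exists_min fun i => F.cost i τ
    exact ⟨i, Finset.mem_filter.2 ⟨Finset.mem_univ _, hi⟩⟩
  have h1 : τ ∈ stepG F (M.min' hM) := by
    have h2 := (Finset.mem_filter.1 (M.min'_mem hM)).2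
    refine ⟨h2, fun k hk => ?_⟩
    by_contra h3
    have h4 : k ∈ M := Finset.mem_filter.2 ⟨Finset.mem_univ _, fun l => (not_lt.1 h3).trans (h2 l)⟩
    exact absurd (M.min'_le k h4) (not_le.2 hk)
  rw [Finset.sum_eq_single (M.min' hM)]
  · unfold stepI
    rw [Set.indicator_of_mem h1]
  · intro i _ hi
    unfold stepI
    refine Set.indicator_of_notMem (fun h2 => ?_) _
    rcases lt_or_gt_of_ne hi with h3 | h3
    · exact absurd (h1.2 i h3) (not_lt.2 (h2.1 _))
    · exact absurd (h2.2 _ h3) (not_lt.2 (h1.1 _))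
  · exact fun h => absurd (Finset.mem_univ _) h

private theorem step_mn (F : Fam j) (τ : Sym2 (Fin d → ℤ) → ℝ) :
    F.mn τ = ∑ i, stepI F i τ * F.cost i τ := by
  have h1 : ∀ i, stepI F i τ * F.cost i τ = stepI F i τ * F.mn τ := by
    intro i
    by_cases h : τ ∈ stepG F i
    · have hne : Nonempty (Fin F.n) := ⟨i⟩
      have h2 : F.cost i τ = F.mn τ := le_antisymm (le_ciInf fun k => h.1 k)
        (ciInf_le (Set.finite_range _).bddBelow i)
      rw [h2]
    · unfold stepI
      rw [Set.indicator_of_notMem h, zero_mul, zero_mul]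
  rw [Finset.sum_congr rfl fun i _ => h1 i, ← Finset.sum_mul, step_sum, one_mul]

private theorem step_int_ind {f : (Sym2 (Fin d → ℤ) → ℝ) → ℝ} (hf : Integrable f (law d nu))
    {A : Set (Sym2 (Fin d → ℤ) → ℝ)} (hA : MeasurableSet A) :
    Integrable (fun τ => A.indicator (fun _ => (1 : ℝ)) τ * f τ) (law d nu) := by
  have h1 : (fun τ => A.indicator (fun _ => (1 : ℝ)) τ * f τ) = A.indicator f := by
    funext τ
    by_cases h : τ ∈ A
    · rw [Set.indicator_of_mem h, Set.indicator_of_mem h, one_mul]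
    · rw [Set.indicator_of_notMem h, Set.indicator_of_notMem h, zero_mul]
  rw [h1]
  exact hf.indicator hA

private theorem step_le (F : Fam j) {τ : Sym2 (Fin d → ℤ) → ℝ} (hτ : ∀ e, 0 ≤ τ e)
    (i : Fin F.n) {y : Fin d → ℤ} (hy : y j = 0) {z : Fin d → ℤ} (hz : 1 ≤ z j) :
    Tp j 0 τ y z ≤ F.cost i (stepSh y τ) + Tp j 1 τ (transl (Pi.single j 1) (y + F.x i)) z := by
  have hxj : (F.x i) j = 0 := F.hor i _ (F.w i).end_mem_support
  have hst : (transl (Pi.single j 1) (y + F.x i)) j = 1 := by
    show ((Pi.single j 1 : Fin d → ℤ) + (y + F.x i)) j = 1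
    simp [hy, hxj]
  have hadj : (lattice d).Adj (y + F.x i) (transl (Pi.single j 1) (y + F.x i)) := by
    show ∑ k, |(y + F.x i) k - ((Pi.single j 1 : Fin d → ℤ) + (y + F.x i)) k| = 1
    have h1 : ∀ k, |(y + F.x i) k - ((Pi.single j 1 : Fin d → ℤ) + (y + F.x i)) k| =
        (Pi.single j 1 : Fin d → ℤ) k := by
      intro k
      rw [Pi.add_apply (Pi.single j 1), sub_add_cancel_right, abs_neg]
      by_cases hk : k = j
      · subst hk; simp
      · simp [Pi.single_eq_of_ne hk]
    rw [Finset.sum_congr rfl fun k _ => h1 k]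
    simp
  have hne : Nonempty {w : (lattice d).Walk (transl (Pi.single j 1) (y + F.x i)) z //
      ∀ v ∈ w.support, 1 ≤ v j} := by
    obtain ⟨w, hw, -⟩ := exists_walk_ge j (h := 1) (x := transl (Pi.single j 1) (y + F.x i))
      (y := z) (by rw [hst]) hz
    exact ⟨⟨w, hw⟩⟩
  rw [← sub_le_iff_le_add']
  refine le_ciInf fun w => ?_
  rw [sub_le_iff_le_add']
  have h0 : (transl y).toHom (0 : Fin d → ℤ) = y := by
    show y + 0 = y
    rw [add_zero]
  have hend : (transl y).toHom (F.x i) = y + F.x i := rfl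
  let W1 : (lattice d).Walk y (y + F.x i) := ((F.w i).map (transl y).toHom).copy h0 hend
  have hp1 : passage τ W1 = passage (stepSh y τ) (F.w i) := by
    have h1 := passage_map τ (transl y) (F.w i)
    rw [show passage (stepSh y τ) (F.w i) = passage (fun e => τ (e.map (transl y))) (F.w i) from rfl,
      ← h1]
    unfold passage
    rw [SimpleGraph.Walk.edges_copy]
  have hs1 : ∀ v ∈ W1.support, 0 ≤ v j := by
    intro v hv
    rw [SimpleGraph.Walk.support_copy, SimpleGraph.Walk.support_map, List.mem_map] at hv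
    obtain ⟨v', hv', rfl⟩ := hv
    have h1 := F.hor i v' hv'
    show 0 ≤ (y + v') j
    rw [Pi.add_apply, hy, h1, add_zero]
  have h1 := Tp_le j (h := 0) hτ (W1.append (SimpleGraph.Walk.cons hadj w.1)) (by
    intro v hv
    rw [SimpleGraph.Walk.mem_support_append_iff, SimpleGraph.Walk.support_cons,
      List.mem_cons] at hv
    rcases hv with hv | rfl | hv
    · exact hs1 v hv
    · rw [Pi.add_apply, hy, hxj, add_zero]
    · exact zero_le_one.trans (w.2 v hv))
  rw [passage_append, passage_cons, hp1] at h1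
  have h2 : F.cost i (stepSh y τ) = passage (stepSh y τ) (F.w i) +
      τ s(y + F.x i, transl (Pi.single j 1) (y + F.x i)) := by
    unfold Fam.cost
    congr 1
    show τ ((vert j (F.x i)).map (transl y)) = _
    unfold vert
    rw [Sym2.map_mk]
    have h3 : (transl y) (F.x i + Pi.single j 1) = transl (Pi.single j 1) (y + F.x i) := by
      show y + (F.x i + Pi.single j 1) = Pi.single j 1 + (y + F.x i)
      abel
    rw [h3]
    rfl
  rw [h2]
  linarith

/-- the edges which meet the half space -/
private def stepS (j : Fin d) : Set (Sym2 (Fin d → ℤ)) := {e | ∃ v ∈ e, v j ≤ 0}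

private def stepS' (j : Fin d) : Set (Sym2 (Fin d → ℤ)) := {e | ∀ v ∈ e, 1 ≤ v j}

private theorem step_disj (j : Fin d) : Disjoint (stepS j) (stepS' j) := by
  rw [Set.disjoint_left]
  rintro e ⟨v, hv, h1⟩ h2
  have := h2 v hv
  omega

private theorem step_dep (F : Fam j) (i : Fin F.n) {y : Fin d → ℤ} (hy : y j = 0) :
    Dep (fun τ => stepI F i (stepSh y τ)) (stepS j) := by
  intro τ τ' h
  have hc : ∀ k, F.cost k (stepSh y τ) = F.cost k (stepSh y τ') := by
    intro k
    unfold Fam.cost
    congr 1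
    · unfold passage
      congr 1
      refine List.map_congr_left fun e he => h _ ?_
      induction e using Sym2.ind with
      | _ a b =>
        refine ⟨transl y a, ?_, ?_⟩
        · rw [Sym2.map_mk]
          exact Sym2.mem_mk_left _ _
        · have h1 := F.hor k a ((F.w k).fst_mem_support_of_mem_edges he)
          show (y + a) j ≤ 0
          rw [Pi.add_apply, hy, h1, add_zero]
    · refine h _ ⟨transl y (F.x k), ?_, ?_⟩
      · unfold vert
        rw [Sym2.map_mk]
        exact Sym2.mem_mk_left _ _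
      · have h1 := F.hor k _ (F.w k).end_mem_support
        show (y + F.x k) j ≤ 0
        rw [Pi.add_apply, hy, h1, add_zero]
  have hG : stepSh y τ ∈ stepG F i ↔ stepSh y τ' ∈ stepG F i := by
    simp only [stepG, Set.mem_ofPred_eq, hc]
  show stepI F i (stepSh y τ) = stepI F i (stepSh y τ')
  unfold stepI
  by_cases h1 : stepSh y τ ∈ stepG F i
  · rw [Set.indicator_of_mem h1, Set.indicator_of_mem (hG.1 h1)]
  · rw [Set.indicator_of_notMem h1, Set.indicator_of_notMem fun h2 => h1 (hG.2 h2)]

private theorem step_dep' (j : Fin d) (a z : Fin d → ℤ) :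
    Dep (fun τ => Tp j 1 τ a z) (stepS' j) := by
  intro τ τ' h
  refine iInf_congr fun w => ?_
  unfold passage
  congr 1
  refine List.map_congr_left fun e he => h _ ?_
  induction e using Sym2.ind with
  | _ b c =>
    intro v hv
    rcases Sym2.mem_iff.1 hv with rfl | rfl
    · exact w.2 _ (w.1.fst_mem_support_of_mem_edges he)
    · exact w.2 _ (w.1.snd_mem_support_of_mem_edges he)

theorem step (F : Fam j) : ∃ p : Fin F.n → ℝ, (∀ i, 0 ≤ p i) ∧ ∑ i, p i = 1 ∧
    ∀ (m : ℕ) (y : Fin d → ℤ), y j = 0 →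
      ∫ τ, Tp j 0 τ y (Pi.single j ((m : ℤ) + 1)) ∂law d nu ≤
        ∫ τ, F.mn τ ∂law d nu +
          ∑ i, p i * ∫ τ, Tp j 0 τ (y + F.x i) (Pi.single j (m : ℤ)) ∂law d nu := by
  have hone : Integrable (fun _ : Sym2 (Fin d → ℤ) → ℝ => (1 : ℝ)) (law d nu) :=
    integrable_const 1
  have hI : ∀ i, Measurable (stepI F i) := fun i => measurable_const.indicator (step_meas F i)
  have hII : ∀ i, Integrable (stepI F i) (law d nu) := fun i => hone.indicator (step_meas F i)
  refine ⟨fun i => ∫ τ, stepI F i τ ∂law d nu, fun i => integral_nonneg (step_nonneg F i), ?_, ?_⟩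
  · rw [← integral_finsetSum _ fun i _ => hII i]
    simp only [step_sum]
    simp
  · intro m y hy
    have hz : (Pi.single j ((m : ℤ) + 1) : Fin d → ℤ) = transl (Pi.single j 1) (Pi.single j (m : ℤ)) := by
      show _ = (Pi.single j 1 : Fin d → ℤ) + Pi.single j (m : ℤ)
      rw [← Pi.single_add, add_comm]
    have hzj : 1 ≤ (Pi.single j ((m : ℤ) + 1) : Fin d → ℤ) j := by
      rw [Pi.single_eq_same]
      omega
    have haj : ∀ i, 1 ≤ (transl (Pi.single j 1) (y + F.x i)) j := by
      intro i
      have hxj : (F.x i) j = 0 := F.hor i _ (F.w i).end_mem_support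
      show 1 ≤ ((Pi.single j 1 : Fin d → ℤ) + (y + F.x i)) j
      simp [hy, hxj]
    -- integrability
    have hshm : Measurable (stepSh (d := d) y) := (step_mp y).measurable
    have hA1 : ∀ i, Integrable (fun τ => stepI F i τ * F.cost i τ) (law d nu) := fun i =>
      step_int_ind (step_int_cost F i) (step_meas F i)
    have hA : ∀ i, Integrable (fun τ => stepI F i (stepSh y τ) * F.cost i (stepSh y τ)) (law d nu) :=
      fun i => (step_mp y).integrable_comp_of_integrable (hA1 i)
    have hB : ∀ i, Integrable (fun τ => stepI F i (stepSh y τ) *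
        Tp j 1 τ (transl (Pi.single j 1) (y + F.x i)) (Pi.single j ((m : ℤ) + 1))) (law d nu) := by
      intro i
      have h1 := step_int_ind (int_Tp j (h := 1) (haj i) hzj)
        ((step_meas F i).preimage hshm)
      exact h1
    have hAB : ∀ i, Integrable (fun τ => stepI F i (stepSh y τ) * F.cost i (stepSh y τ) +
        stepI F i (stepSh y τ) *
          Tp j 1 τ (transl (Pi.single j 1) (y + F.x i)) (Pi.single j ((m : ℤ) + 1))) (law d nu) :=
      fun i => (hA i).add (hB i)
    have hle : ∫ τ, Tp j 0 τ y (Pi.single j ((m : ℤ) + 1)) ∂law d nu ≤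
        ∫ τ, ∑ i, (stepI F i (stepSh y τ) * F.cost i (stepSh y τ) + stepI F i (stepSh y τ) *
          Tp j 1 τ (transl (Pi.single j 1) (y + F.x i)) (Pi.single j ((m : ℤ) + 1))) ∂law d nu := by
      refine integral_mono_of_nonneg ?_ (integrable_finsetSum _ fun i _ => hAB i) ?_
      · filter_upwards [dist_nu.ae0 (d := d)] with τ hτ using Tp_nonneg j 0 hτ _ _
      · filter_upwards [dist_nu.ae0 (d := d)] with τ hτ
        have h1 : Tp j 0 τ y (Pi.single j ((m : ℤ) + 1)) =
            ∑ i, stepI F i (stepSh y τ) * Tp j 0 τ y (Pi.single j ((m : ℤ) + 1)) := by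
          rw [← Finset.sum_mul, step_sum, one_mul]
        rw [h1]
        refine Finset.sum_le_sum fun i _ => ?_
        rw [← mul_add]
        exact mul_le_mul_of_nonneg_left (step_le F hτ i hy hzj) (step_nonneg F i _)
    refine hle.trans (le_of_eq ?_)
    rw [integral_finsetSum _ fun i _ => hAB i]
    have hmn : ∫ τ, F.mn τ ∂law d nu = ∑ i, ∫ τ, stepI F i τ * F.cost i τ ∂law d nu := by
      rw [← integral_finsetSum _ fun i _ => hA1 i]
      exact integral_congr_ae (Filter.Eventually.of_forall fun τ => step_mn F τ)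
    rw [hmn, ← Finset.sum_add_distrib]
    refine Finset.sum_congr rfl fun i _ => ?_
    rw [integral_add (hA i) (hB i)]
    congr 1
    · exact step_int y ((hI i).mul (step_meas_cost F i))
    · have hind := indep_set (ν := nu) (f := fun τ => stepI F i (stepSh y τ))
        (g := fun τ => Tp j 1 τ (transl (Pi.single j 1) (y + F.x i)) (Pi.single j ((m : ℤ) + 1)))
        ((hI i).comp hshm) (measurable_Tp j 1 _ _) (step_disj j) (step_dep F i hy) (step_dep' j _ _)
      refine hind.trans ?_
      congr 1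
      · exact step_int y (hI i)
      · rw [hz]
        have h1 := integral_Tp_map j 0 1 (transl (Pi.single j 1)) (fun v => by
          show ((Pi.single j 1 : Fin d → ℤ) + v) j = v j + 1
          rw [Pi.add_apply, Pi.single_eq_same, add_comm]) (y + F.x i) (Pi.single j (m : ℤ))
        rw [zero_add] at h1
        exact h1

end Pool.Agent.Lib.EDN
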