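import Pool.Agent.Lib.EDN.Gfun

/-!
# Comparison of `cosh` with the exponential of `g`
-/

set_option autoImplicit false

open MeasureTheory ENNReal Filter Topology Pool.Agent.Lib.MP_a83deb_pr

namespace Pool.Agent.Lib.EDN

theorem xlam {ρ : ℝ} (hρ : 0 < ρ) : ∃ l : ℝ, 0 < l ∧
    ∀ z : ℝ, Real.cosh (l * z) ≤ Real.exp (l * ρ / 2 * g (|z| / 2)) := by
  set v : ℝ := Real.exp (1 + 4 / ρ) / 2 with hv
  have hv0 : 0 < v := by positivity
  have h2v : 2 * v = Real.exp (1 + 4 / ρ) := by
    rw [hv]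
    ring
  have hgv : v * (4 / ρ) ≤ g v := by
    have h1 := g_lower hv0
    rw [h2v, Real.log_exp] at h1
    linarith
  have hgv0 : 0 < g v := lt_of_lt_of_le (by positivity) hgv
  refine ⟨ρ * g v / (4 * v ^ 2), by positivity, fun z => ?_⟩
  set l := ρ * g v / (4 * v ^ 2) with hl
  have hl0 : 0 < l := by positivity
  set u := |z| / 2 with hu
  have hu0 : 0 ≤ u := by positivity
  rcases le_total u v with huv | huv
  · have h1 := g_ratio hu0 huv
    refine (Real.cosh_le_exp_half_sq _).trans (Real.exp_le_exp.2 ?_)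
    have h2 : (l * z) ^ 2 / 2 = 2 * l ^ 2 * u ^ 2 := by
      have h4 : |z| ^ 2 = z ^ 2 := sq_abs z
      have h5 : u ^ 2 = z ^ 2 / 4 := by
        rw [hu, ← h4]
        ring
      rw [h5]
      ring
    rw [h2]
    have h3 : l * ρ / 2 * (g v * u ^ 2 / v ^ 2) = 2 * l ^ 2 * u ^ 2 := by
      have h4 : ρ * g v = l * (4 * v ^ 2) := by
        rw [hl]
        field_simp
      calc l * ρ / 2 * (g v * u ^ 2 / v ^ 2) = l * (ρ * g v) * u ^ 2 / (2 * v ^ 2) := by ring
        _ = l * (l * (4 * v ^ 2)) * u ^ 2 / (2 * v ^ 2) := by rw [h4]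
        _ = 2 * l ^ 2 * u ^ 2 := by
          field_simp
          ring
    rw [← h3]
    refine mul_le_mul_of_nonneg_left ?_ (by positivity)
    rw [div_le_iff₀ (by positivity)]
    exact h1
  · have hu1 : 0 < u := lt_of_lt_of_le hv0 huv
    have h1 : Real.cosh (l * z) ≤ Real.exp (l * |z|) := by
      rw [← Real.cosh_abs, abs_mul, abs_of_pos hl0, Real.cosh_eq]
      have h2 : Real.exp (-(l * |z|)) ≤ Real.exp (l * |z|) :=
        Real.exp_le_exp.2 (by
          have : 0 ≤ l * |z| := by positivity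
          linarith)
      linarith
    refine h1.trans (Real.exp_le_exp.2 ?_)
    have h2 := g_lower hu1
    have h3 : 1 + 4 / ρ ≤ Real.log (2 * u) := by
      rw [Real.le_log_iff_exp_le (by positivity), ← h2v]
      linarith
    have h4 : u * (4 / ρ) ≤ g u :=
      (mul_le_mul_of_nonneg_left (by linarith) hu1.le).trans h2
    have h5 : l * |z| = l * ρ / 2 * (u * (4 / ρ)) := by
      rw [hu]
      field_simp
      ring
    rw [h5]
    exact mul_le_mul_of_nonneg_left h4 (by positivity)

end Pool.Agent.Lib.EDN
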