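import Pool.Agent.Lib.EDN.Conv
import Pool.Agent.Lib.EDN.NUp
import Pool.Agent.Lib.EDN.NLow
import Pool.Agent.Lib.EDN.NMin
import Pool.Agent.Lib.EDN.XCount
import Pool.Agent.Lib.EDN.XLam
import Pool.Agent.Lib.MP_a83deb_pr.Milman

/-!
# Exponentially many directions of curvature in high dimension
-/

set_option autoImplicit false

open MeasureTheory ENNReal Filter Topology Pool.Agent.Lib.MP_a83deb_pr

namespace Pool.Agent.Lib.EDN

variable {d : ℕ} {ν : Measure ℝ} [IsProbabilityMeasure ν]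

/-- counting with the support function in the directions of the sign vectors -/
private theorem xmain_count {M : EuclideanSpace ℝ (Fin d) → ℝ} {α β : ℝ} (hN : Nm M α β)
    (j : Fin d) (hsp : ∀ ε π x, M (sp ε π x) = M x) {l D B : ℝ} (hl : 0 ≤ l)
    (hcosh : ∀ x, M x ≤ 1 → ∏ i, Real.cosh (l * x i) ≤ Real.exp B)
    (hM1 : D * M (WithLp.toLp 2 fun _ => (1 : ℝ)) ≤ d)
    {N : ℕ} (hNexp : (N : ℝ) ≤ Real.exp (l * D - B)) :
    (N : ℕ∞) ≤ {u | Curv M u}.encard := by
  classical
  by_cases hfin : {u | Curv M u}.Finite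
  swap
  · rw [Set.Infinite.encard_eq hfin]
    exact le_top
  set S := hfin.toFinset with hS
  set Z : Finset (EuclideanSpace ℝ (Fin d)) := S.image fun u => (M u)⁻¹ • u with hZ
  have hpts : pts M = (Z : Set (EuclideanSpace ℝ (Fin d))) := by
    ext z
    simp only [hZ, hS, Finset.coe_image, Set.Finite.coe_toFinset, Set.mem_image]
    constructor
    · rintro ⟨u, hu, rfl⟩
      exact ⟨u, hu, rfl⟩
    · rintro ⟨u, hu, rfl⟩
      exact ⟨u, hu, rfl⟩
  have hhull := hN.hull j
  have hZW : ∀ z ∈ Z, M z ≤ 1 := by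
    intro z hz
    have h1 : z ∈ pts M := by
      rw [hpts]
      exact hz
    exact hN.pts_subset h1
  have hcount := xcount (D := D) Z hl (fun z hz => hcosh z (hZW z hz)) (by
    intro σ
    set s : EuclideanSpace ℝ (Fin d) := WithLp.toLp 2 fun i => ((σ i : ℤ) : ℝ) with hs
    have hssp : s = sp σ (Equiv.refl _) (WithLp.toLp 2 fun _ => (1 : ℝ)) := by
      ext i
      rw [sp_apply]
      simp [hs]
    have hMs : M s = M (WithLp.toLp 2 fun _ => (1 : ℝ)) := by
      rw [hssp, hsp]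
    have hs0 : s ≠ 0 := by
      intro h0
      have h1 := congrArg (fun x : EuclideanSpace ℝ (Fin d) => x j) h0
      simp [hs] at h1
    have hMs0 : 0 < M s := hN.pos hs0
    set p := (M s)⁻¹ • s with hp
    have hMp : M p ≤ 1 := by
      rw [hp, hN.smul _ (inv_pos.2 hMs0).le, inv_mul_cancel₀ hMs0.ne']
    have hne : Z.Nonempty := by
      by_contra hcon
      rw [Finset.not_nonempty_iff_eq_empty] at hcon
      rw [hpts, hcon, Finset.coe_empty, convexHull_empty, closure_empty] at hhull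
      have h1 : p ∈ ({x | M x ≤ 1} : Set (EuclideanSpace ℝ (Fin d))) := hMp
      rw [hhull] at h1
      exact h1
    obtain ⟨z₀, hz₀, hmax⟩ := Z.exists_max_image
      (fun z => ∑ i, ((σ i : ℤ) : ℝ) * z i) hne
    refine ⟨z₀, hz₀, ?_⟩
    set c := ∑ i, ((σ i : ℤ) : ℝ) * z₀ i with hc
    have hlin : ∀ x : EuclideanSpace ℝ (Fin d), ∑ i, ((σ i : ℤ) : ℝ) * x i = inner ℝ x s := by
      intro x
      rw [PiLp.inner_apply]
      refine Finset.sum_congr rfl fun i _ => ?_
      simp [hs]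
    have hsub : {x | M x ≤ 1} ⊆ {x : EuclideanSpace ℝ (Fin d) | inner ℝ x s ≤ c} := by
      rw [hhull, hpts]
      refine closure_minimal (convexHull_min ?_ ?_) ?_
      · intro z hz
        show inner ℝ z s ≤ c
        rw [← hlin]
        exact hmax z hz
      · intro x hx y hy t u ht hu htu
        have hx' : inner ℝ x s ≤ c := hx
        have hy' : inner ℝ y s ≤ c := hy
        show inner ℝ (t • x + u • y) s ≤ c
        rw [inner_add_left, real_inner_smul_left, real_inner_smul_left]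
        calc t * inner ℝ x s + u * inner ℝ y s ≤ t * c + u * c :=
              add_le_add (mul_le_mul_of_nonneg_left hx' ht) (mul_le_mul_of_nonneg_left hy' hu)
          _ = c := by rw [← add_mul, htu, one_mul]
      · exact isClosed_le (continuous_id.inner continuous_const) continuous_const
    have h1 : inner ℝ p s ≤ c := hsub hMp
    have h2 : inner ℝ p s = (M s)⁻¹ * d := by
      rw [hp, real_inner_smul_left, ← hlin]
      congr 1
      have h3 : ∀ i ∈ (Finset.univ : Finset (Fin d)), ((σ i : ℤ) : ℝ) * s i = 1 := by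
        intro i _
        show ((σ i : ℤ) : ℝ) * ((σ i : ℤ) : ℝ) = 1
        rcases unit_cases (σ i) with h | h <;> rw [h] <;> norm_num
      rw [Finset.sum_congr rfl h3]
      simp
    rw [h2] at h1
    refine le_trans ?_ h1
    rw [← hMs] at hM1
    rw [inv_mul_eq_div, le_div_iff₀ hMs0]
    exact hM1)
  have h1 : (N : ℝ) ≤ (S.card : ℝ) := by
    refine (hNexp.trans hcount).trans ?_
    exact_mod_cast Finset.card_image_le
  have h2 : N ≤ S.card := by exact_mod_cast h1
  rw [hfin.encard_eq_coe_toFinset_card]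
  exact_mod_cast h2

/-- exponentially many directions of curvature -/
theorem xmain {ρ : ℝ} (hρ : 0 < ρ) : ∃ c : ℝ, 0 < c ∧
    ∀ (ν : Measure ℝ) [IsProbabilityMeasure ν], Dist ν 0 → ∀ a b : ℝ, 0 < a → 0 < b → ρ * b ≤ a →
      (∀ᶠ t in 𝓝[>] (0 : ℝ), a * t ≤ ν.real (Set.Iic t) ∧ ν.real (Set.Iic t) ≤ b * t) →
      ∃ d₀ : ℕ, ∀ d, d₀ ≤ d → ∀ μ, TimeConstant d ν μ →
        ∀ N : ℕ, (N : ℝ) ≤ Real.exp (c * d) → (N : ℕ∞) ≤ {u | Curv μ u}.encard := by
  obtain ⟨l, hl0, hl⟩ := xlam hρ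
  refine ⟨l * ρ / 4, by positivity, fun ν _ hν a b ha hb0 hab hF => ?_⟩
  obtain ⟨d₂, hd₂⟩ := nlow hν hb0 (b' := b * (1 + 1 / 10)) (by linarith) (hF.mono fun t ht => ht.2)
  obtain ⟨d₃, hd₃⟩ := nmin hν ha (hF.mono fun t ht => ht.1) (ε := 1 / 10) (by norm_num)
  refine ⟨d₂ + d₃ + 2, fun d hd μ hμ N hN => ?_⟩
  have hM : IsTC ν μ := hμ.isTC hν
  have hdpos : (0 : ℝ) < d := by
    have : 0 < d := by omega
    exact_mod_cast this
  set j : Fin d := ⟨0, by omega⟩ with hj
  have hlow := hd₂ d (by omega) μ hM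
  set K := b * (1 + 1 / 10) with hKdef
  have hK : 0 < K := by positivity
  -- positivity
  have hpos : ∀ x : EuclideanSpace ℝ (Fin d), x ≠ 0 → 0 < μ x := by
    intro x hx
    have h1 := hlow (fun i => x i) x
    have h2 : ∑ i, x i * x i = ‖x‖ ^ 2 := by
      rw [EuclideanSpace.norm_eq, Real.sq_sqrt (Finset.sum_nonneg fun i _ => sq_nonneg _)]
      refine Finset.sum_congr rfl fun i _ => ?_
      rw [Real.norm_eq_abs, sq_abs, sq]
    have h3 : 0 < ‖x‖ ^ 2 := pow_pos (norm_pos_iff.2 hx) 2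
    have h4 : 0 ≤ K * (2 * ∑ i, Real.cosh (x i)) :=
      mul_nonneg hK.le (mul_nonneg zero_le_two (Finset.sum_nonneg fun i _ => (Real.cosh_pos _).le))
    simp only at h1
    rw [h2] at h1
    by_contra hcon
    push Not at hcon
    have := mul_nonpos_of_nonneg_of_nonpos h4 hcon
    linarith
  obtain ⟨α, hNm⟩ := IsTC.nm' hν hM (fun u hu => hpos u (by
    rintro rfl
    simp at hu)) j
  -- the dual bound
  have hcosh : ∀ x, μ x ≤ 1 → ∏ i, Real.cosh (l / K * x i) ≤ Real.exp (l * ρ / 2 * d) := by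
    intro x hx
    have h1 : ∀ θ : Fin d → ℝ, ∑ i, θ i * (K⁻¹ * x i) ≤ 2 * ∑ i, Real.cosh (θ i) := by
      intro θ
      have h7 := hlow θ x
      have h8 : 0 ≤ K * (2 * ∑ i, Real.cosh (θ i)) :=
        mul_nonneg hK.le (mul_nonneg zero_le_two (Finset.sum_nonneg fun i _ => (Real.cosh_pos _).le))
      have h9 := mul_le_mul_of_nonneg_left hx h8
      have h10 : ∑ i, θ i * (K⁻¹ * x i) = K⁻¹ * ∑ i, θ i * x i := by
        rw [Finset.mul_sum]
        refine Finset.sum_congr rfl fun k _ => ?_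
        ring
      rw [h10, inv_mul_le_iff₀ hK]
      linarith
    have h2 := conv (fun i => K⁻¹ * x i) h1
    calc ∏ i, Real.cosh (l / K * x i) ≤ ∏ i, Real.exp (l * ρ / 2 * g (|K⁻¹ * x i| / 2)) := by
          refine Finset.prod_le_prod (fun i _ => (Real.cosh_pos _).le) fun i _ => ?_
          have h3 : l / K * x i = l * (K⁻¹ * x i) := by ring
          rw [h3]
          exact hl _
      _ = Real.exp (l * ρ / 2 * ∑ i, g (|K⁻¹ * x i| / 2)) := by
          rw [← Real.exp_sum, Finset.mul_sum]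
      _ ≤ Real.exp (l * ρ / 2 * d) :=
          Real.exp_le_exp.2 (mul_le_mul_of_nonneg_left h2 (by positivity))
  -- the diagonal
  set D := (d : ℝ) * a / (1 + 1 / 10) with hDdef
  have hD0 : 0 < D := by positivity
  have hM1 : D * μ (WithLp.toLp 2 fun _ => (1 : ℝ)) ≤ d := by
    have h1 := (nup hν hM (by omega)).trans (hd₃ d (by omega))
    calc D * μ (WithLp.toLp 2 fun _ => (1 : ℝ)) ≤ D * ((1 + 1 / 10) / a) :=
          mul_le_mul_of_nonneg_left h1 hD0.le
      _ = d := by
          rw [hDdef]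
          field_simp
  refine xmain_count hNm j (fun ε π x => IsTC.sp hν hM ε π x) (l := l / K) (by positivity) hcosh hM1
    (hN.trans (Real.exp_le_exp.2 ?_))
  have h1 : l / K * D = l * d * (a / b) * (100 / 121) := by
    rw [hDdef, hKdef]
    field_simp
    ring
  have h2 : ρ ≤ a / b := by
    rw [le_div_iff₀ hb0]
    exact hab
  have h3 : l * d * ρ * (100 / 121) ≤ l * d * (a / b) * (100 / 121) :=
    mul_le_mul_of_nonneg_right (mul_le_mul_of_nonneg_left h2 (by positivity)) (by norm_num)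
  have h4 : 0 < l * d * ρ := by positivity
  rw [h1]
  nlinarith

end Pool.Agent.Lib.EDN
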